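import Mathlib

/-!
# Project CP: the point set of a digraph (definitions)

A *blob* is an arc `(u, v)` of the digraph together with a corner type: `0` bottom left,
`1` bottom right, `2` top right, `3` top left. The blob `((u, v), τ)` lies in column `v` and row `u`
for `τ` even, and in column `u` and row `v` for `τ` odd. It consists of three chains
(`m = 0` vertical, `m = 1` diagonal, `m = 2` horizontal) with `t` points each.
-/

namespace Pool.Agent.W982.CP

/-- The point of the real plane with the given rational coordinates. -/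
def toR (p : ℚ × ℚ) : ℝ × ℝ := ((p.1 : ℝ), (p.2 : ℝ))

/-- The points of the list are in convex position: every point of the list is a vertex
(an extreme point) of the convex hull of the points of the list. -/
def ConvPos (T : List (ℚ × ℚ)) : Prop :=
  ∀ p ∈ T, toR p ∈ (convexHull ℝ {x | ∃ q ∈ T, toR q = x}).extremePoints ℝ

/-- The orientation of a triple of points. -/
def orient (a b c : ℚ × ℚ) : ℚ := (b.1 - a.1) * (c.2 - a.2) - (b.2 - a.2) * (c.1 - a.1)

/-- An arc together with a corner type. -/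
abbrev Blob : Type := (ℕ × ℕ) × ℕ

/-- A quadruple `(w, z, y, x)` of vertices. -/
abbrev Quad : Type := ℕ × ℕ × ℕ × ℕ

/-- The four blobs of a quadruple: `(w, z)` top left, `(z, y)` top right, `(y, x)` bottom right,
`(x, w)` bottom left. -/
def rect (q : Quad) : List Blob :=
  [((q.1, q.2.1), 3), ((q.2.1, q.2.2.1), 2), ((q.2.2.1, q.2.2.2), 1), ((q.2.2.2, q.1), 0)]

/-- The four arcs of the quadruple are arcs of the digraph. -/
def Closed (E : List (ℕ × ℕ)) (q : Quad) : Prop :=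
  (q.1, q.2.1) ∈ E ∧ (q.2.1, q.2.2.1) ∈ E ∧ (q.2.2.1, q.2.2.2) ∈ E ∧ (q.2.2.2, q.1) ∈ E

/-- The blobs of a digraph. -/
def blobs (E : List (ℕ × ℕ)) : List Blob := E.flatMap fun e => (List.range 4).map fun τ => (e, τ)

/-- The column of a blob. -/
def col (b : Blob) : ℕ := if b.2 % 2 = 0 then b.1.2 else b.1.1

/-- The row of a blob. -/
def row (b : Blob) : ℕ := if b.2 % 2 = 0 then b.1.1 else b.1.2

/-- The blob is on the right side. -/
def xs (b : Blob) : Bool := decide (b.2 = 1 ∨ b.2 = 2)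

/-- The blob is on the top side. -/
def ys (b : Blob) : Bool := decide (b.2 = 2 ∨ b.2 = 3)

def gB (n : ℕ) : ℕ := 2 ^ (n + 4)
def gA (n t : ℕ) : ℕ := 64 * t * gB n ^ n
def gZ (n t : ℕ) : ℕ := 2 * t * gA n t
def gR (n t : ℕ) : ℕ := 16 * gA n t * gZ n t

/-- The horizontal offset of the point number `k` of the chain `m` of a blob in column `c`. -/
def offX (n t c m k : ℕ) : ℕ :=
  if m = 0 then k * (k + 1)
  else if m = 1 then t * (t - 1) + (k + 1) * (8 * t * (4 * gB n ^ (c + 1)) + (k + 1) - (t + 1))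
  else (t - 1 - k) * gA n t + t * (t - 1) + 4 * gB n ^ (c + 1) * (8 * t * (t + 1))

/-- The vertical offset of the point number `k` of the chain `m` of a blob in row `r`. -/
def offY (n t r m k : ℕ) : ℕ :=
  if m = 0 then (t - 1 - k) * gA n t + t * (t - 1) + 2 ^ r * (8 * t * (t + 1))
  else if m = 1 then t * (t - 1) + (t - k) * (8 * t * 2 ^ r - (k + 1))
  else k * (k + 1)

/-- The point number `k` of the chain `m` of the blob `b`. -/
def pt (n t : ℕ) (b : Blob) (m k : ℕ) : ℚ × ℚ :=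
  ((if b.2 = 1 ∨ b.2 = 2 then (1 : ℚ) else -1) *
      ((gR n t * gB n ^ (col b + 1) - offX n t (col b) m k : ℕ) : ℚ),
   (if b.2 = 2 ∨ b.2 = 3 then (1 : ℚ) else -1) *
      ((gR n t * (2 ^ (n + 1) - 2 ^ row b) - offY n t (row b) m k : ℕ) : ℚ))

/-- The points of a blob. -/
def blobPts (n t : ℕ) (b : Blob) : List (ℚ × ℚ) :=
  (List.range 3).flatMap fun m => (List.range t).map fun k => pt n t b m k

/-- The points of a digraph. -/
def pts (n t : ℕ) (E : List (ℕ × ℕ)) : List (ℚ × ℚ) := (blobs E).flatMap (blobPts n t)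

/-- The number of points of the chain `m` of the blob `b` that are in the list `T`. -/
def cls (n t : ℕ) (T : List (ℚ × ℚ)) (b : Blob) (m : ℕ) : ℕ :=
  ((List.range t).filter fun k => decide (pt n t b m k ∈ T)).length

/-- The part `T` is full: `a` is the number of arcs. -/
def Full (t a : ℕ) (T : List (ℚ × ℚ)) : Prop := 23 * t + 48 * a < 2 * T.length

/-! ### The statements about the geometry -/

/-- The wedge lemma. -/
def S_WEDGE : Prop := ∀ (T : List (ℚ × ℚ)), ConvPos T → ∀ u ∈ T, ∀ v ∈ T, ∀ w ∈ T, ∀ z ∈ T,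
  (0 < orient u v w → orient u v z < 0 → orient v w z < 0 → False) ∧
  (orient u v w < 0 → 0 < orient u v z → 0 < orient v w z → False)

/-- A criterion for convex position. -/
def S_CONV : Prop := ∀ (T : List (ℚ × ℚ)),
  (∀ p ∈ T, ∃ a b : ℚ, ∀ q ∈ T, q ≠ p → a * q.1 + b * q.2 < a * p.1 + b * p.2) → ConvPos T

/-- Sublists of lists in convex position. -/
def S_SUB : Prop := ∀ (T T' : List (ℚ × ℚ)), ConvPos T → (∀ p ∈ T', p ∈ T) → ConvPos T'

/-- What the vertical chain forbids. -/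
def S_FV : Prop := ∀ (n t : ℕ) (T : List (ℚ × ℚ)), ConvPos T → ∀ (b b' : Blob),
  b.2 < 4 → b'.2 < 4 → col b < n → row b < n → col b' < n → row b' < n →
  ∀ i j k m' k' : ℕ, i < j → j < k → k < t → m' < 3 → k' < t →
  pt n t b 0 i ∈ T → pt n t b 0 j ∈ T → pt n t b 0 k ∈ T → pt n t b' m' k' ∈ T →
  xs b' = xs b → col b' ≤ col b ∧ (col b' = col b → ys b' = ys b → row b ≤ row b')

/-- What the horizontal chain forbids. -/
def S_FU : Prop := ∀ (n t : ℕ) (T : List (ℚ × ℚ)), ConvPos T → ∀ (b b' : Blob),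
  b.2 < 4 → b'.2 < 4 → col b < n → row b < n → col b' < n → row b' < n →
  ∀ i j k m' k' : ℕ, i < j → j < k → k < t → m' < 3 → k' < t →
  pt n t b 2 i ∈ T → pt n t b 2 j ∈ T → pt n t b 2 k ∈ T → pt n t b' m' k' ∈ T →
  ys b' = ys b → row b ≤ row b' ∧ (row b' = row b → xs b' = xs b → col b' ≤ col b)

/-- What the diagonal chain forbids. -/
def S_FM : Prop := ∀ (n t : ℕ) (T : List (ℚ × ℚ)), ConvPos T → ∀ (b b' : Blob),
  b.2 < 4 → b'.2 = b.2 → col b < n → row b < n → col b' < n → row b' < n →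
  ∀ i j k m' k' : ℕ, i < j → j < k → k < t → m' < 3 → k' < t →
  pt n t b 1 i ∈ T → pt n t b 1 j ∈ T → pt n t b 1 k ∈ T → pt n t b' m' k' ∈ T →
  col b' ≤ col b ∧ row b ≤ row b'

/-- The points of the four blobs of a quadruple are in convex position. -/
def S_RECT : Prop := ∀ (n t : ℕ) (q : Quad), q.1 < n → q.2.1 < n → q.2.2.1 < n → q.2.2.2 < n →
  ConvPos ((rect q).flatMap (blobPts n t))

/-- The points of a digraph are distinct. -/
def S_NOD : Prop := ∀ (n t : ℕ) (E : List (ℕ × ℕ)), E.Nodup → (∀ e ∈ E, e.1 < n ∧ e.2 < n) →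
  (pts n t E).Nodup

/-- Counting the points of a part. -/
def S_CNT : Prop := ∀ (n t : ℕ) (E : List (ℕ × ℕ)), (pts n t E).Nodup → ∀ (T : List (ℚ × ℚ)),
  T.Nodup → (∀ p ∈ T, p ∈ pts n t E) →
  T.length = ((blobs E).map fun b => cls n t T b 0 + cls n t T b 1 + cls n t T b 2).sum

/-- The structure of a part in convex position. -/
def S_PART : Prop := ∀ (n t : ℕ) (E : List (ℕ × ℕ)), E.Nodup → (∀ e ∈ E, e.1 < n ∧ e.2 < n) →
  6 ≤ t → ∀ (T : List (ℚ × ℚ)), T.Nodup → (∀ p ∈ T, p ∈ pts n t E) → ConvPos T →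
  T.length ≤ 12 * t + 24 * E.length ∧
  (Full t E.length T → ∃ q : Quad, Closed E q ∧
    ∀ b ∈ blobs E, ∀ m < 3, t < 2 * cls n t T b m ↔ b ∈ rect q)

/-- Soundness of the geometry. -/
def S_SOUND : Prop := ∀ (n t : ℕ) (E : List (ℕ × ℕ)), E.Nodup → (∀ e ∈ E, e.1 < n ∧ e.2 < n) →
  400 * (E.length + 1) ^ 2 ≤ t → ∀ (y : List (List (ℚ × ℚ))), y.flatten.Perm (pts n t E) →
  (∀ T ∈ y, ConvPos T) →
  E.length ≤ y.length ∧ ∃ R : Finset Quad, (∀ q ∈ R, Closed E q) ∧
    (∀ q ∈ R, ∀ q' ∈ R, ∀ b, b ∈ rect q → b ∈ rect q' → q = q') ∧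
    ((blobs E).filter fun b => decide (∀ q ∈ R, b ∉ rect q)).length ≤
      96 * (y.length - E.length) ∧
    ∀ b ∈ blobs E, ∀ b' ∈ blobs E, (∃ T ∈ y, Full t E.length T ∧ t < 2 * cls n t T b 1 ∧
      t < 2 * cls n t T b' 1) ↔ ∃ q ∈ R, b ∈ rect q ∧ b' ∈ rect q

/-- Completeness of the geometry. -/
def S_COMPL : Prop := ∀ (n t : ℕ) (E : List (ℕ × ℕ)) (Q : List Quad),
  (∀ q ∈ Q, q.1 < n ∧ q.2.1 < n ∧ q.2.2.1 < n ∧ q.2.2.2 < n) →
  (∀ b ∈ blobs E, ∃ q ∈ Q, b ∈ rect q) →
  ∃ y : List (List (ℚ × ℚ)), y.flatten.Perm (pts n t E) ∧ (∀ T ∈ y, ConvPos T) ∧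
    y.length = Q.length

end Pool.Agent.W982.CP
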