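import Pool.Agent.W982.CP.GeoB

/-!
# Project CP: the points of a digraph are distinct
-/

namespace Pool.Agent.W982.CP

/-- A labelled point: blob, chain, number. -/
def ValidL (n t : ℕ) (b : Blob) (m k : ℕ) : Prop :=
  b.2 < 4 ∧ col b < n ∧ row b < n ∧ m < 3 ∧ k < t

theorem RC_pos {n t : ℕ} {b : Blob} {m k : ℕ} (h : ValidL n t b m k) :
    (0 : ℚ) < gR n t * (gB n : ℚ) ^ (col b + 1) - offX n t (col b) m k ∧
    (0 : ℚ) < gR n t * (2 * 2 ^ n - 2 ^ row b) - offY n t (row b) m k := by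
  obtain ⟨_, hc, hr, hm, hk⟩ := h
  have h1 := offX_le hc hk hm
  have h1' := offY_le hr hk hm
  obtain ⟨_, h0, _, h2, h3⟩ := ZR (show 0 < n by omega) (show 0 < t by omega)
  have h4 : (1 : ℚ) ≤ (gB n : ℚ) ^ (col b + 1) := one_le_pow₀ (by
    have : 1 ≤ gB n := Nat.one_le_two_pow
    exact_mod_cast this)
  obtain ⟨h7, h8⟩ := rowpow hr
  constructor <;> nlinarith

theorem sgx_of_eq {n t : ℕ} {b b' : Blob} {m k m' k' : ℕ} (h : ValidL n t b m k)
    (h' : ValidL n t b' m' k') (he : pt n t b m k = pt n t b' m' k') : sgx b = sgx b' := by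
  have h1 := RC_pos h
  have h1' := RC_pos h'
  have e1 : (pt n t b m k).1 = (pt n t b' m' k').1 := by rw [he]
  rw [pt_fst h.2.1 h.2.2.2.2 h.2.2.2.1, pt_fst h'.2.1 h'.2.2.2.2 h'.2.2.2.1] at e1
  rcases sgx_cases b with h2 | h2 <;> rcases sgx_cases b' with h3 | h3 <;>
    rw [h2, h3] at e1 <;> rw [h2, h3] <;> nlinarith

theorem sgy_of_eq {n t : ℕ} {b b' : Blob} {m k m' k' : ℕ} (h : ValidL n t b m k)
    (h' : ValidL n t b' m' k') (he : pt n t b m k = pt n t b' m' k') : sgy b = sgy b' := by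
  have h1 := RC_pos h
  have h1' := RC_pos h'
  have e1 : (pt n t b m k).2 = (pt n t b' m' k').2 := by rw [he]
  rw [pt_snd h.2.2.1 h.2.2.2.2 h.2.2.2.1, pt_snd h'.2.2.1 h'.2.2.2.2 h'.2.2.2.1] at e1
  rcases sgy_cases b with h2 | h2 <;> rcases sgy_cases b' with h3 | h3 <;>
    rw [h2, h3] at e1 <;> rw [h2, h3] <;> nlinarith

theorem col_not_lt {n t : ℕ} {b b' : Blob} {m k m' k' : ℕ} (h : ValidL n t b m k)
    (h' : ValidL n t b' m' k') (he : pt n t b m k = pt n t b' m' k') : ¬ col b < col b' := by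
  intro hlt
  have e1 : (pt n t b m k).1 = (pt n t b' m' k').1 := by rw [he]
  have hs := sgx_of_eq h h' he
  obtain ⟨_, hc, hr, hm, hk⟩ := h
  obtain ⟨_, hc', hr', hm', hk'⟩ := h'
  rw [pt_fst hc hk hm, pt_fst hc' hk' hm', hs] at e1
  have e2 : gR n t * (gB n : ℚ) ^ (col b + 1) - offX n t (col b) m k =
      gR n t * (gB n : ℚ) ^ (col b' + 1) - offX n t (col b') m' k' := by
    rcases sgx_cases b' with h2 | h2 <;> rw [h2] at e1 <;> linarith
  have h1 := offX_le hc hk hm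
  have h1' := offX_le hc' hk' hm'
  have h5 := colpow_lt (n := n) hlt
  have P := pars (show 0 < n by omega) (show 0 < t by omega)
  obtain ⟨h6, h7⟩ := colpow hc
  have h8 := P.eB
  have h9 := P.W2
  obtain ⟨_, h0, _, h2, h3⟩ := ZR (show 0 < n by omega) (show 0 < t by omega)
  have h10 : (0 : ℚ) ≤ offX n t (col b) m k := Nat.cast_nonneg _
  have h11 : (0 : ℚ) ≤ offX n t (col b') m' k' := Nat.cast_nonneg _
  have h12 : (gB n : ℚ) ^ (col b + 1) + 1 ≤ (gB n : ℚ) ^ (col b' + 1) := by nlinarith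
  nlinarith

theorem row_not_lt {n t : ℕ} {b b' : Blob} {m k m' k' : ℕ} (h : ValidL n t b m k)
    (h' : ValidL n t b' m' k') (he : pt n t b m k = pt n t b' m' k') : ¬ row b < row b' := by
  intro hlt
  have e1 : (pt n t b m k).2 = (pt n t b' m' k').2 := by rw [he]
  have hs := sgy_of_eq h h' he
  obtain ⟨_, hc, hr, hm, hk⟩ := h
  obtain ⟨_, hc', hr', hm', hk'⟩ := h'
  rw [pt_snd hr hk hm, pt_snd hr' hk' hm', hs] at e1
  have e2 : (gR n t : ℚ) * (2 * 2 ^ n - 2 ^ row b) - offY n t (row b) m k =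
      (gR n t : ℚ) * (2 * 2 ^ n - 2 ^ row b') - offY n t (row b') m' k' := by
    rcases sgy_cases b' with h2 | h2 <;> rw [h2] at e1 <;> linarith
  have h1 := offY_le hr hk hm
  have h1' := offY_le hr' hk' hm'
  have h5 := rowpow_lt hlt
  obtain ⟨h6, h7⟩ := rowpow hr
  obtain ⟨_, h0, _, h2, h3⟩ := ZR (show 0 < n by omega) (show 0 < t by omega)
  have h10 : (0 : ℚ) ≤ offY n t (row b) m k := Nat.cast_nonneg _
  have h11 : (0 : ℚ) ≤ offY n t (row b') m' k' := Nat.cast_nonneg _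
  nlinarith

theorem sg_type {b b' : Blob} (h : b.2 < 4) (h' : b'.2 < 4) (hx : sgx b = sgx b')
    (hy : sgy b = sgy b') : b.2 = b'.2 := by
  unfold sgx at hx
  unfold sgy at hy
  generalize b.2 = x at *
  generalize b'.2 = y at *
  interval_cases x <;> interval_cases y <;> first | rfl | (exfalso; revert hx hy; norm_num)

theorem blob_eq {n t : ℕ} {b b' : Blob} {m k m' k' : ℕ} (h : ValidL n t b m k)
    (h' : ValidL n t b' m' k') (he : pt n t b m k = pt n t b' m' k') : b = b' := by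
  have h1 := sg_type h.1 h'.1 (sgx_of_eq h h' he) (sgy_of_eq h h' he)
  have h2 : col b = col b' := by
    have := col_not_lt h h' he
    have := col_not_lt h' h he.symm
    omega
  have h3 : row b = row b' := by
    have := row_not_lt h h' he
    have := row_not_lt h' h he.symm
    omega
  obtain ⟨⟨u, v⟩, τ⟩ := b
  obtain ⟨⟨u', v'⟩, τ'⟩ := b'
  simp only at h1
  subst h1
  unfold col at h2
  unfold row at h3
  simp only at h2 h3
  split_ifs at h2 h3 <;> simp [h2, h3]

theorem off_eq {n t : ℕ} {b : Blob} {m k m' k' : ℕ} (h : ValidL n t b m k)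
    (h' : ValidL n t b m' k') (he : pt n t b m k = pt n t b m' k') :
    (offX n t (col b) m k : ℚ) = offX n t (col b) m' k' ∧
    (offY n t (row b) m k : ℚ) = offY n t (row b) m' k' := by
  have e1 : (pt n t b m k).1 = (pt n t b m' k').1 := by rw [he]
  have e2 : (pt n t b m k).2 = (pt n t b m' k').2 := by rw [he]
  obtain ⟨_, hc, hr, hm, hk⟩ := h
  obtain ⟨_, hc', hr', hm', hk'⟩ := h'
  rw [pt_fst hc hk hm, pt_fst hc' hk' hm'] at e1
  rw [pt_snd hr hk hm, pt_snd hr' hk' hm'] at e2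
  constructor
  · rcases sgx_cases b with h2 | h2 <;> rw [h2] at e1 <;> linarith
  · rcases sgy_cases b with h2 | h2 <;> rw [h2] at e2 <;> linarith

/-- Bounds that separate the chains. -/
theorem sep {n t c r k : ℕ} (hc : c < n) (hr : r < n) (hk : k < t) :
    (offX n t c 0 k : ℚ) ≤ t * (t - 1) ∧ (t : ℚ) * (t - 1) < offX n t c 1 k ∧
    (t : ℚ) * (t - 1) < offX n t c 2 k ∧ (t : ℚ) * (t - 1) < offY n t r 1 k ∧
    (offY n t r 2 k : ℚ) ≤ t * (t - 1) := by
  have P := pars (show 0 < n by omega) (show 0 < t by omega)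
  obtain ⟨h1, h2⟩ := colpow hc
  obtain ⟨h3, h4⟩ := rowpow hr
  have h5 := P.t1
  have h6 := P.eB
  have h7 := P.W2
  have hk' : (k : ℚ) + 1 ≤ t := by exact_mod_cast hk
  have hk0 : (0 : ℚ) ≤ k := Nat.cast_nonneg _
  have hA : (1 : ℚ) ≤ gA n t := (ZR (show 0 < n by omega) (show 0 < t by omega)).1
  refine ⟨?_, ?_, ?_, ?_, ?_⟩
  · rw [offX0]; nlinarith
  · rw [offX1 hk]
    have : 0 < (8 * t * (4 * (gB n : ℚ) ^ (c + 1)) + (k + 1) - (t + 1)) := by nlinarith
    nlinarith [mul_pos (show (0:ℚ) < k + 1 by linarith) this]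
  · rw [offX2 hk]
    have e1 : 0 ≤ ((t : ℚ) - 1 - k) * gA n t := mul_nonneg (by linarith) (by linarith)
    have e0 : (0 : ℚ) < (gB n : ℚ) ^ (c + 1) := by linarith
    have e0' : (0 : ℚ) < t := by linarith
    have e2 : 0 < 4 * (gB n : ℚ) ^ (c + 1) * (8 * t * (t + 1)) := by positivity
    linarith
  · rw [offY1 hk]
    have : 0 < (8 * t * (2 : ℚ) ^ r - (k + 1)) := by nlinarith
    nlinarith [mul_pos (show (0:ℚ) < t - k by linarith) this]
  · rw [offY2]; nlinarith

theorem kk_inj {k k' : ℕ} (h : (k : ℚ) * (k + 1) = k' * (k' + 1)) : k = k' := by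
  have h1 : k * (k + 1) = k' * (k' + 1) := by exact_mod_cast h
  by_contra hne
  rcases Nat.lt_or_gt_of_ne hne with h2 | h2
  · nlinarith
  · nlinarith

/-- The labels of the points are unique. -/
theorem pt_inj {n t : ℕ} {b b' : Blob} {m k m' k' : ℕ} (h : ValidL n t b m k)
    (h' : ValidL n t b' m' k') (he : pt n t b m k = pt n t b' m' k') :
    b = b' ∧ m = m' ∧ k = k' := by
  have hb := blob_eq h h' he
  subst hb
  obtain ⟨e1, e2⟩ := off_eq h h' he
  obtain ⟨_, hc, hr, hm, hk⟩ := h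
  obtain ⟨_, _, _, hm', hk'⟩ := h'
  obtain ⟨a1, a2, a3, a4, a5⟩ := sep hc hr hk
  obtain ⟨b1, b2, b3, b4, b5⟩ := sep hc hr hk'
  refine ⟨rfl, ?_⟩
  have P := pars (show 0 < n by omega) (show 0 < t by omega)
  obtain ⟨h1, h2⟩ := colpow hc
  have h5 := P.t1
  have h6 := P.eB
  have h7 := P.W2
  interval_cases m <;> interval_cases m'
  · rw [offX0, offX0] at e1
    exact ⟨rfl, kk_inj e1⟩
  · linarith
  · linarith
  · linarith
  · refine ⟨rfl, ?_⟩
    rw [offX1 hk, offX1 hk'] at e1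
    by_contra hne
    have hk1 : (k : ℚ) + 1 ≤ t := by exact_mod_cast hk
    have hk1' : (k' : ℚ) + 1 ≤ t := by exact_mod_cast hk'
    have hk0 : (0 : ℚ) ≤ k := Nat.cast_nonneg _
    have hk0' : (0 : ℚ) ≤ k' := Nat.cast_nonneg _
    have e3 : ((k : ℚ) - k') * (8 * t * (4 * (gB n : ℚ) ^ (col b + 1)) + (k + k' + 1) - t) = 0 := by
      linear_combination e1
    have e4 : 0 < (8 * t * (4 * (gB n : ℚ) ^ (col b + 1)) + (k + k' + 1) - t) := by nlinarith
    rcases mul_eq_zero.1 e3 with h8 | h8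
    · apply hne
      have : (k : ℚ) = k' := by linarith
      exact_mod_cast this
    · linarith
  · linarith
  · linarith
  · linarith
  · rw [offY2, offY2] at e2
    exact ⟨rfl, kk_inj e2⟩

theorem mem_blobs' {E : List (ℕ × ℕ)} {b : Blob} (h : b ∈ blobs E) : b.1 ∈ E ∧ b.2 < 4 := by
  unfold blobs at h
  rw [List.mem_flatMap] at h
  obtain ⟨e, he, h⟩ := h
  rw [List.mem_map] at h
  obtain ⟨τ, hτ, rfl⟩ := h
  exact ⟨he, List.mem_range.1 hτ⟩

theorem blobs_nodup {E : List (ℕ × ℕ)} (h : E.Nodup) : (blobs E).Nodup := by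
  unfold blobs
  rw [List.nodup_flatMap]
  refine ⟨fun e _ => List.Nodup.map (fun a b hab => (Prod.mk.inj hab).2) List.nodup_range, ?_⟩
  refine h.imp ?_
  intro e e' hne
  rw [Function.onFun, List.disjoint_left]
  intro b hb hb'
  rw [List.mem_map] at hb hb'
  obtain ⟨τ, _, rfl⟩ := hb
  obtain ⟨τ', _, h2⟩ := hb'
  exact hne (Prod.mk.inj h2).1.symm

theorem colrow_lt {E : List (ℕ × ℕ)} {n : ℕ} (hE : ∀ e ∈ E, e.1 < n ∧ e.2 < n) {b : Blob}
    (h : b ∈ blobs E) : col b < n ∧ row b < n := by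
  have := hE _ (mem_blobs' h).1
  unfold col row
  split_ifs
  · exact ⟨this.2, this.1⟩
  · exact ⟨this.1, this.2⟩

theorem t_NOD : S_NOD := by
  intro n t E hE hlt
  unfold pts
  rw [List.nodup_flatMap]
  have hval : ∀ b ∈ blobs E, ∀ m < 3, ∀ k < t, ValidL n t b m k := fun b hb m hm k hk =>
    ⟨(mem_blobs' hb).2, (colrow_lt hlt hb).1, (colrow_lt hlt hb).2, hm, hk⟩
  constructor
  · intro b hb
    unfold blobPts
    rw [List.nodup_flatMap]
    constructor
    · intro m hm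
      rw [List.mem_range] at hm
      refine List.Nodup.map_on ?_ List.nodup_range
      intro k hk k' hk' h
      rw [List.mem_range] at hk hk'
      exact (pt_inj (hval b hb m hm k hk) (hval b hb m hm k' hk') h).2.2
    · refine (List.nodup_range (n := 3)).imp_of_mem ?_
      intro m m' hm hm' hne
      rw [List.mem_range] at hm hm'
      rw [Function.onFun, List.disjoint_left]
      intro p hp hp'
      rw [List.mem_map] at hp hp'
      obtain ⟨k, hk, rfl⟩ := hp
      obtain ⟨k', hk', h⟩ := hp'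
      rw [List.mem_range] at hk hk'
      exact hne (pt_inj (hval b hb m hm k hk) (hval b hb m' hm' k' hk') h.symm).2.1
  · refine (blobs_nodup hE).imp_of_mem ?_
    intro b b' hb hb' hne
    rw [Function.onFun, List.disjoint_left]
    intro p hp hp'
    unfold blobPts at hp hp'
    rw [List.mem_flatMap] at hp hp'
    obtain ⟨m, hm, hp⟩ := hp
    obtain ⟨m', hm', hp'⟩ := hp'
    rw [List.mem_map] at hp hp'
    obtain ⟨k, hk, rfl⟩ := hp
    obtain ⟨k', hk', h⟩ := hp'
    rw [List.mem_range] at hk hk' hm hm'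
    exact hne (pt_inj (hval b hb m hm k hk) (hval b' hb' m' hm' k' hk') h.symm).1

end Pool.Agent.W982.CP
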