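import Pool.Agent.W982.CP.Rect

/-!
# Project CP: the points of a rectangle are in convex position (conclusion)
-/

namespace Pool.Agent.W982.CP

theorem rect_cases {q : Quad} {b b' : Blob} (h : b ∈ rect q) (h' : b' ∈ rect q) :
    (xs b' = xs b → col b' = col b) ∧ (ys b' = ys b → row b' = row b) ∧
      (xs b' = xs b → ys b' = ys b → b' = b) := by
  unfold rect at h h'
  simp only [List.mem_cons, List.not_mem_nil, or_false] at h h'
  rcases h with rfl | rfl | rfl | rfl <;> rcases h' with rfl | rfl | rfl | rfl <;>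
    simp [xs, ys, col, row]

theorem rect_lt {q : Quad} {n : ℕ} (h1 : q.1 < n) (h2 : q.2.1 < n) (h3 : q.2.2.1 < n)
    (h4 : q.2.2.2 < n) {b : Blob} (h : b ∈ rect q) : col b < n ∧ row b < n := by
  unfold rect at h
  simp only [List.mem_cons, List.not_mem_nil, or_false] at h
  rcases h with rfl | rfl | rfl | rfl <;> simp [col, row, h1, h2, h3, h4]

theorem t_RECT : S_CONV → S_RECT := by
  intro hC n t q q1 q2 q3 q4
  apply hC
  intro p hp
  rw [List.mem_flatMap] at hp
  obtain ⟨b, hb, hp⟩ := hp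
  unfold blobPts at hp
  rw [List.mem_flatMap] at hp
  obtain ⟨m, hm, hp⟩ := hp
  rw [List.mem_map] at hp
  obtain ⟨k, hk, rfl⟩ := hp
  rw [List.mem_range] at hm hk
  obtain ⟨hc, hr⟩ := rect_lt q1 q2 q3 q4 hb
  refine ⟨al n t (row b) m k * sgx b, be n t (col b) m k * sgy b, ?_⟩
  intro z hz hne
  rw [List.mem_flatMap] at hz
  obtain ⟨b', hb', hz⟩ := hz
  unfold blobPts at hz
  rw [List.mem_flatMap] at hz
  obtain ⟨m', hm', hz⟩ := hz
  rw [List.mem_map] at hz
  obtain ⟨k', hk', rfl⟩ := hz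
  rw [List.mem_range] at hm' hk'
  obtain ⟨hc', hr'⟩ := rect_lt q1 q2 q3 q4 hb'
  obtain ⟨e1, e2, e3⟩ := rect_cases hb hb'
  have E1 : al n t (row b) m k * sgx b * (pt n t b' m' k').1 +
      be n t (col b) m k * sgy b * (pt n t b' m' k').2 =
      al n t (row b) m k * (fr b (pt n t b' m' k')).1 +
      be n t (col b) m k * (fr b (pt n t b' m' k')).2 := by
    unfold fr; ring
  have E2 : al n t (row b) m k * sgx b * (pt n t b m k).1 +
      be n t (col b) m k * sgy b * (pt n t b m k).2 =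
      al n t (row b) m k * (fr b (pt n t b m k)).1 +
      be n t (col b) m k * (fr b (pt n t b m k)).2 := by
    unfold fr; ring
  rw [E1, E2]
  obtain ⟨a1, a2, a3, a4⟩ := ab_bounds (n := n) (t := t) hc hr hk hm
  obtain ⟨z1, z2, z3, z4, z5⟩ := ZR (show 0 < n by omega) (show 0 < t by omega)
  have x1 := offX_le hc hk hm
  have x2 := offX_le hc' hk' hm'
  have y1 := offY_le hr hk hm
  have y2 := offY_le hr' hk' hm'
  have x10 : (0 : ℚ) ≤ offX n t (col b) m k := Nat.cast_nonneg _
  have x20 : (0 : ℚ) ≤ offX n t (col b') m' k' := Nat.cast_nonneg _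
  have y10 : (0 : ℚ) ≤ offY n t (row b) m k := Nat.cast_nonneg _
  have y20 : (0 : ℚ) ≤ offY n t (row b') m' k' := Nat.cast_nonneg _
  have P := pars (show 0 < n by omega) (show 0 < t by omega)
  obtain ⟨c1, c2⟩ := colpow hc
  obtain ⟨c1', c2'⟩ := colpow hc'
  obtain ⟨r1, r2⟩ := rowpow hr
  obtain ⟨r1', r2'⟩ := rowpow hr'
  have w2 := P.W2
  have eB := P.eB
  set α : ℚ := al n t (row b) m k
  set β : ℚ := be n t (col b) m k
  set A : ℚ := (gA n t : ℚ)
  set Z : ℚ := (gZ n t : ℚ)
  set R : ℚ := (gR n t : ℚ)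
  set X : ℚ := (offX n t (col b) m k : ℚ) with hX
  set X' : ℚ := (offX n t (col b') m' k' : ℚ) with hX'
  set Y : ℚ := (offY n t (row b) m k : ℚ) with hY
  set Y' : ℚ := (offY n t (row b') m' k' : ℚ) with hY'
  have hRC : R ≤ R * (gB n : ℚ) ^ (col b + 1) := by nlinarith
  have hRC' : R ≤ R * (gB n : ℚ) ^ (col b' + 1) := by nlinarith
  have hRW : R ≤ R * (2 * 2 ^ n - 2 ^ row b) := by nlinarith
  have hRW' : R ≤ R * (2 * 2 ^ n - 2 ^ row b') := by nlinarith
  have hαZ : α * Z ≤ A * Z := mul_le_mul_of_nonneg_right a2 (by linarith)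
  have hβZ : β * Z ≤ A * Z := mul_le_mul_of_nonneg_right a4 (by linarith)
  have hαX : α * (X - X') ≤ α * Z := mul_le_mul_of_nonneg_left (by linarith) (by linarith)
  have hβY : β * (Y - Y') ≤ β * Z := mul_le_mul_of_nonneg_left (by linarith) (by linarith)
  by_cases hx : xs b' = xs b
  · rw [frx_same hx hc' hk' hm', frx_same rfl hc hk hm]
    by_cases hy : ys b' = ys b
    · have hbb := e3 hx hy
      subst hbb
      rw [fry_same hy hr' hk' hm', fry_same rfl hr hk hm]
      have hne' : ¬ (m' = m ∧ k' = k) := by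
        rintro ⟨rfl, rfl⟩
        exact hne rfl
      have := same_blob hc hr hk hm hk' hm' hne'
      linarith
    · rw [fry_diff hy hr' hk' hm', fry_same rfl hr hk hm, e1 hx]
      have h1 : β * (R * (2 * 2 ^ n - 2 ^ row b') + R * (2 * 2 ^ n - 2 ^ row b) - Y' - Y) ≥
          1 * (2 * R - 2 * Z) := by
        apply mul_le_mul a3 (by linarith) (by nlinarith) (by linarith)
      nlinarith
  · rw [frx_diff hx hc' hk' hm', frx_same rfl hc hk hm]
    have h2 : α * (R * (gB n : ℚ) ^ (col b' + 1) + R * (gB n : ℚ) ^ (col b + 1) - X' - X) ≥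
          1 * (2 * R - 2 * Z) := by
        apply mul_le_mul a1 (by linarith) (by nlinarith) (by linarith)
    by_cases hy : ys b' = ys b
    · rw [fry_same hy hr' hk' hm', fry_same rfl hr hk hm, e2 hy]
      nlinarith
    · rw [fry_diff hy hr' hk' hm', fry_same rfl hr hk hm]
      have h1 : β * (R * (2 * 2 ^ n - 2 ^ row b') + R * (2 * 2 ^ n - 2 ^ row b) - Y' - Y) ≥
          1 * (2 * R - 2 * Z) := by
        apply mul_le_mul a3 (by linarith) (by nlinarith) (by linarith)
      nlinarith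

end Pool.Agent.W982.CP
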