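import Pool.Agent.W982.CP.Asm
import Pool.Agent.W982.CP.Nod
import Pool.Agent.W982.CP.Rect2
import Pool.Agent.W503.CP_WEDGE
import Pool.Agent.W503.CP_CNT
import Pool.Agent.W503.CP_GC
import Pool.Agent.W578.CP_PART
import Pool.Agent.W806.CP_SOUND
import Pool.Agent.W612.CP.GS
import Pool.Agent.W612.CP.ARCS
import Pool.Agent.W612.CP.CL
import Pool.Agent.W930.CP_CLH
import Pool.Agent.W930.CP_FORM
import Pool.Agent.W253.CPP.Ptas
import Pool.Agent.W903.CP.Poly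
import Pool.Agent.W976.CP_FV
import Pool.Agent.W976.CP_FU
import Pool.Agent.W976.CP_FM

/-!
# Project CP: all parts together
-/

namespace Pool.Agent.W982.CP

open Pool.Agent.H243R3.TP

theorem all : ∀ P : OptProblem, InAPX P → PTASReduces P convexPartition := by
  have hW : S_WEDGE := Pool.Agent.W503.CP.t_WEDGE
  have hPART : S_PART := t_PART (Pool.Agent.W976.CP.t_FV hW) (Pool.Agent.W976.CP.t_FU hW)
    (Pool.Agent.W976.CP.t_FM hW) Pool.Agent.W503.CP.t_CNT t_NOD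
  exact asm Pool.Agent.W253.CPP.t_PTAS Pool.Agent.W612.CPARCS.t_ARCS
    (Pool.Agent.W806.CPS.t_SOUND hPART t_NOD)
    (Pool.Agent.W503.CP.t_COMPL (t_RECT Pool.Agent.W503.CP.t_CONV) Pool.Agent.W503.CP.t_SUB)
    (Pool.Agent.W612.CP.t_GS Pool.Agent.W612.CPARCS.t_ARCS Pool.Agent.W612.CPCL.t_CL0
      Pool.Agent.W612.CPCL.t_CL1 Pool.Agent.W930.CPCLH.t_CLH)
    Pool.Agent.W503.CP.t_GC Pool.Agent.W930.CPFORM.t_FORM t_NOD
    (Pool.Agent.NPC.W903CP.t_P1 Pool.Agent.W612.CPARCS.t_ARCS) Pool.Agent.NPC.W903CP.t_P2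

end Pool.Agent.W982.CP
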