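import Pool.Agent.W982.CP.Fm

/-!
# Project CP: the assembly
-/

namespace Pool.Agent.W982.CP

open Pool.Agent.NPC Pool.Agent.H243R3.TP Pool.Agent.H243R3.PCP Pool.Agent.NPC.DP

theorem fo_spec {f : ℕ → ℕ} {m v o : ℕ} (ho : o < 3 * m) (hv : f o = v) :
    fo f m v < 3 * m ∧ f (fo f m v) = v := by
  unfold fo
  have hne : (List.range (3 * m)).filter (fun o => decide (f o = v)) ≠ [] := by
    intro h
    have : o ∈ (List.range (3 * m)).filter (fun o => decide (f o = v)) := by
      rw [List.mem_filter]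
      exact ⟨List.mem_range.2 ho, by simp [hv]⟩
    rw [h] at this
    simp at this
  obtain ⟨a, l, hl⟩ := List.exists_cons_of_ne_nil hne
  rw [hl]
  simp only [List.head?_cons, Option.getD_some]
  have : a ∈ (List.range (3 * m)).filter (fun o => decide (f o = v)) := by
    rw [hl]; simp
  rw [List.mem_filter] at this
  exact ⟨List.mem_range.1 this.1, by simpa using this.2⟩

theorem mem_blobs {E : List (ℕ × ℕ)} {e : ℕ × ℕ} {τ : ℕ} (he : e ∈ E) (hτ : τ < 4) :
    (e, τ) ∈ blobs E := by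
  unfold blobs
  rw [List.mem_flatMap]
  exact ⟨e, he, List.mem_map.2 ⟨τ, List.mem_range.2 hτ, rfl⟩⟩

theorem mem_arcs_base {f : ℕ → ℕ} {sg : ℕ → Bool} {m o i j : ℕ} (ho : o < 3 * m) (hi : i < 8)
    (hj : j < 3) : ringA o i j ∈ arcs f sg m ∧ (vx o i j, up f m o i j) ∈ arcs f sg m ∧
      (up f m o i j, vx o i j) ∈ arcs f sg m := by
  have key : ∀ e ∈ [ringA o i j, (vx o i j, up f m o i j), (up f m o i j, vx o i j)],
      e ∈ arcs f sg m := by
    intro e he
    unfold arcs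
    rw [List.mem_append]
    left
    rw [List.mem_flatMap]
    refine ⟨o, List.mem_range.2 ho, ?_⟩
    rw [List.mem_flatMap]
    refine ⟨i, List.mem_range.2 hi, ?_⟩
    rw [List.mem_flatMap]
    exact ⟨j, List.mem_range.2 hj, he⟩
  exact ⟨key _ (by simp), key _ (by simp), key _ (by simp)⟩

/-- The position of a variable of the old formula in the new one. -/
theorem exists_pos {φ : List Clause} {x : ℕ} (hx : x ∈ occ φ) :
    ∃ o < 3 * (2 * φ.length), fv φ o = 2 * x := by
  rw [occ_eq, List.mem_map] at hx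
  obtain ⟨l, hl, rfl⟩ := hx
  rw [List.mem_range] at hl
  unfold np at hl
  by_cases h : l % 3 = 2
  · refine ⟨6 * (l / 3) + 3, by omega, ?_⟩
    unfold fv tp
    have e1 : (6 * (l / 3) + 3) % 3 = 0 := by omega
    have e2 : (6 * (l / 3) + 3) / 3 % 2 = 1 := by omega
    have e3 : 3 * ((6 * (l / 3) + 3) / 6) + 2 = l := by omega
    rw [e1, e2, e3]
    simp
  · refine ⟨6 * (l / 3) + l % 3, by omega, ?_⟩
    unfold fv tp
    have e1 : (6 * (l / 3) + l % 3) % 3 = l % 3 := by omega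
    have e2 : (6 * (l / 3) + l % 3) / 3 % 2 = 0 := by omega
    have e3 : 3 * ((6 * (l / 3) + l % 3) / 6) + l % 3 = l := by omega
    rw [e1, e2, if_neg h, if_pos rfl, e3]

/-- **CONVEX-PARTITION is APX-hard**, from the parts. -/
theorem asm (hPTAS : S_PTAS) (hARCS : S_ARCS) (hSOUND : S_SOUND) (hCOMPL : S_COMPL) (hGS : S_GS)
    (hGC : S_GC) (hFORM : S_FORM) (hNOD : S_NOD) (h1 : S_P1) (h2 : S_P2) :
    ∀ P : OptProblem, InAPX P → PTASReduces P convexPartition := by
  refine hPTAS convexPartition rfl inst decs (fun φ => 444 * φ.length) 18 (192 * Bd) 444 h1 h2 ?_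
  intro (φ : List Clause) hφ
  obtain ⟨-, hocc⟩ := hφ
  obtain ⟨a1, a2, a3⟩ := hARCS (fv φ) (fs φ) (2 * φ.length)
  obtain ⟨f1, f2, f3, f4⟩ := hFORM φ Bd (by unfold Bd; norm_num) hocc
  have hE : (fa φ).length = 444 * φ.length := by
    unfold fa
    rw [a1]; ring
  have hlt : ∀ e ∈ fa φ, e.1 < 144 * φ.length ∧ e.2 < 144 * φ.length := by
    intro e he
    have := a3 e he
    omega
  have hnd : (inst φ).Nodup := hNOD _ _ _ a2 hlt
  refine ⟨hnd, le_rfl, ?_, ?_⟩
  · intro A
    obtain ⟨val, hval⟩ := f4 A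
    obtain ⟨Q, q1, q2, q3⟩ := hGC (fv φ) (fs φ) (2 * φ.length) val
    obtain ⟨y, y1, y2, y3⟩ := hCOMPL (144 * φ.length) (ft φ) (fa φ) Q (by
      intro q hq
      have := q2 q hq
      omega) q3
    refine ⟨y, ⟨y1, y2⟩, ?_⟩
    change ((y.length : ℕ) : ℝ) ≤ _
    rw [y3]
    have : Q.length ≤ 444 * φ.length + 18 * unsat φ A := by omega
    exact_mod_cast this
  · intro (y : List (List (ℚ × ℚ))) hy
    obtain ⟨hp, hc⟩ := hy
    have ht : 400 * ((fa φ).length + 1) ^ 2 ≤ ft φ := by rw [hE]; rfl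
    obtain ⟨s1, R, r1, r2, r3, r4⟩ := hSOUND (144 * φ.length) (ft φ) (fa φ) a2 hlt ht y hp hc
    rw [hE] at s1 r3
    refine ⟨?_, ?_⟩
    · change (((444 * φ.length : ℕ)) : ℝ) ≤ ((y.length : ℕ) : ℝ)
      exact_mod_cast s1
    · have g := hGS (fv φ) (fs φ) (2 * φ.length) (2 * Bd) (by unfold Bd; norm_num) f1 f2 R r1 r2
      set val : ℕ → Bool := fun v =>
        decide (∃ q ∈ R, mk1 (fv φ) (2 * φ.length) v ∈ rect q ∧
          mk2 (fv φ) (2 * φ.length) v ∈ rect q) with hval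
      have hdec : ∀ x ∈ occ φ, x ∈ decs φ y ↔ val (2 * x) = true := by
        intro x hx
        obtain ⟨o, ho, hox⟩ := exists_pos hx
        obtain ⟨o1, o2⟩ := fo_spec (f := fv φ) (m := 2 * φ.length) ho hox
        have hm := mem_arcs_base (f := fv φ) (sg := fs φ) (m := 2 * φ.length) (j := 0) o1
          (show 0 < 8 by norm_num) (by norm_num)
        have hb1 : mk1 (fv φ) (2 * φ.length) (2 * x) ∈ blobs (fa φ) :=
          mem_blobs hm.1 (by omega)
        have hb2 : mk2 (fv φ) (2 * φ.length) (2 * x) ∈ blobs (fa φ) :=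
          mem_blobs hm.2.2 (by omega)
        unfold decs
        rw [List.mem_filter, hval]
        simp only [decide_eq_true_eq]
        rw [← r4 _ hb1 _ hb2, hE]
        unfold dec Full
        simp only [List.any_eq_true, Bool.and_eq_true, decide_eq_true_eq]
        constructor
        · rintro ⟨_, T, hT, ⟨h3, h4⟩, h5⟩
          exact ⟨T, hT, h3, h4, h5⟩
        · rintro ⟨T, hT, h3, h4, h5⟩
          exact ⟨hx, T, hT, ⟨h3, h4⟩, h5⟩
      have h3 := f3 val (decs φ y) hdec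
      have h4 : unsat φ (decs φ y) ≤ 192 * Bd * (y.length - 444 * φ.length) := by
        calc unsat φ (decs φ y) ≤ _ := h3
          _ ≤ _ := g
          _ ≤ 2 * Bd * (96 * (y.length - 444 * φ.length)) := Nat.mul_le_mul_left _ r3
          _ = 192 * Bd * (y.length - 444 * φ.length) := by ring
      change ((unsat φ (decs φ y) : ℕ) : ℝ) ≤ ((192 * Bd : ℕ) : ℝ) *
        (((y.length : ℕ) : ℝ) - ((444 * φ.length : ℕ) : ℝ))
      rw [← Nat.cast_sub s1]
      exact_mod_cast h4

end Pool.Agent.W982.CP
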