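import Pool.Agent.W982.CP.Gr
import Pool.Agent.H243R3.TP.Form
import Pool.Agent.H243R3.PCP.Apx

/-!
# Project CP: the reduction (definitions)
-/

namespace Pool.Agent.W982.CP

open Pool.Agent.NPC Pool.Agent.H243R3.TP Pool.Agent.H243R3.PCP Pool.Agent.NPC.DP

/-! ### PTAS-reductions and the problem -/

/-- **PTAS-reducibility.** There are functions `c`, `f`, `g` such that, for every rational `r > 1`,
`c r > 1` is rational, `f r` and `g r` are computable in polynomial time, `f r` maps instances of
`P` to instances of `Q` (with a feasible solution if the instance of `P` has one), and `g r` maps an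
instance `x` of `P` and a feasible solution of `f r x` to a feasible solution of `x`, a solution
of performance ratio at most `c r` being mapped to one of performance ratio at most `r`. -/
def PTASReduces (P Q : OptProblem) : Prop :=
  ∃ (c : ℚ → ℚ) (f : ℚ → P.Inst → Q.Inst) (g : ℚ → P.Inst → Q.Sol → P.Sol),
    (∀ r : ℚ, 1 < r → 1 < c r) ∧
    (∀ r : ℚ, 1 < r → PolyFn (f r)) ∧
    (∀ r : ℚ, 1 < r → PolyFn (fun z : P.Inst × Q.Sol => g r z.1 z.2)) ∧
    ∀ r : ℚ, 1 < r → ∀ x, P.valid x →
      Q.valid (f r x) ∧ ((∃ y, P.feas x y) → ∃ y, Q.feas (f r x) y) ∧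
      ∀ y, Q.feas (f r x) y → P.feas x (g r x y) ∧
        (Q.Approx (c r : ℚ) (f r x) y → P.Approx (r : ℚ) x (g r x y))

/-- **CONVEX-PARTITION.** An instance is a list, without repetitions, of points of the plane with
rational coordinates. A solution is a partition of the points into parts in convex position; its
value, to be minimized, is the number of parts. -/
noncomputable def convexPartition : OptProblem where
  Inst := List (ℚ × ℚ)
  Sol := List (List (ℚ × ℚ))
  encI := inferInstance
  encS := inferInstance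
  valid S := S.Nodup
  feas S y := y.flatten.Perm S ∧ ∀ T ∈ y, ConvPos T
  val _ y := (y.length : ℝ)
  maximize := false

/-- The general lemma: a minimization problem with a polynomial-time reduction from MAX-3SAT-B
that creates a gap in both directions is APX-hard under PTAS-reductions. -/
def S_PTAS : Prop := ∀ (Q : OptProblem), Q.maximize = false →
  ∀ (F : List Clause → Q.Inst) (D : List Clause → Q.Sol → List ℕ) (N0 : List Clause → ℕ)
    (c1 c2 c3 : ℕ),
  Poly F → Poly (fun z : List Clause × Q.Sol => D z.1 z.2) →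
  (∀ φ, (max3Sat Bd).valid φ → Q.valid (F φ) ∧ N0 φ ≤ c3 * φ.length ∧
    (∀ A, ∃ y, Q.feas (F φ) y ∧ Q.val (F φ) y ≤ ((N0 φ + c1 * unsat φ A : ℕ) : ℝ)) ∧
    ∀ y, Q.feas (F φ) y → ((N0 φ : ℕ) : ℝ) ≤ Q.val (F φ) y ∧
      ((unsat φ (D φ y) : ℕ) : ℝ) ≤ c2 * (Q.val (F φ) y - (N0 φ : ℕ))) →
  ∀ P : OptProblem, InAPX P → PTASReduces P Q

/-! ### The transformation of formulas -/

/-- The position of the formula `φ` used at the position `o` of the transformed formula
(for `o % 3 < 2`). -/
def tp (o : ℕ) : ℕ := if o / 3 % 2 = 0 then 3 * (o / 6) + o % 3 else 3 * (o / 6) + 2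

/-- The variables of the transformed formula: the clause `(a, b, c)` number `i` becomes the clauses
`(a, b, z)` and `(c, c, not z)` with the new variable `z = 2 i + 1`; an old variable `x`
becomes `2 x`. -/
def fv (φ : List Clause) (o : ℕ) : ℕ := if o % 3 = 2 then 2 * (o / 6) + 1 else 2 * vr φ (tp o)

/-- The signs of the transformed formula. -/
def fs (φ : List Clause) (o : ℕ) : Bool :=
  if o % 3 = 2 then decide (o / 3 % 2 = 0) else sn φ (tp o)

/-- The transformation of formulas. -/
def S_FORM : Prop := ∀ (φ : List Clause) (Δ : ℕ), 1 ≤ Δ → (∀ x, (occ φ).count x ≤ Δ) →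
  (∀ o < 3 * (2 * φ.length), fv φ o % 2 = if o % 3 = 2 then 1 else 0) ∧
  (∀ v, ((List.range (3 * (2 * φ.length))).filter fun o => decide (fv φ o = v)).length ≤ 2 * Δ) ∧
  (∀ (val : ℕ → Bool) (A : List ℕ), (∀ x ∈ occ φ, x ∈ A ↔ val (2 * x) = true) →
    unsat φ A ≤ uns (fv φ) (fs φ) (2 * φ.length) val) ∧
  ∀ A : List ℕ, ∃ val : ℕ → Bool, uns (fv φ) (fs φ) (2 * φ.length) val ≤ unsat φ A

/-! ### The reduction -/

/-- The arcs of the digraph of a formula. -/
def fa (φ : List Clause) : List (ℕ × ℕ) := arcs (fv φ) (fs φ) (2 * φ.length)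

/-- The length of the chains. -/
def ft (φ : List Clause) : ℕ := 400 * (444 * φ.length + 1) ^ 2

/-- The instance of CONVEX-PARTITION. -/
def inst (φ : List Clause) : List (ℚ × ℚ) := pts (144 * φ.length) (ft φ) (fa φ)

/-- The test used for decoding. -/
def dec (φ : List Clause) (y : List (List (ℚ × ℚ))) (v : ℕ) : Bool :=
  y.any fun T => decide (23 * ft φ + 48 * (444 * φ.length) < 2 * T.length) &&
    decide (ft φ < 2 * cls (144 * φ.length) (ft φ) T (mk1 (fv φ) (2 * φ.length) v) 1) &&
    decide (ft φ < 2 * cls (144 * φ.length) (ft φ) T (mk2 (fv φ) (2 * φ.length) v) 1)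

/-- The decoding of solutions. -/
def decs (φ : List Clause) (y : List (List (ℚ × ℚ))) : List ℕ :=
  (occ φ).filter fun x => dec φ y (2 * x)

/-- The reduction is computable in polynomial time. -/
def S_P1 : Prop := Poly inst

/-- The decoding is computable in polynomial time. -/
def S_P2 : Prop := Poly (fun z : List Clause × List (List (ℚ × ℚ)) => decs z.1 z.2)

end Pool.Agent.W982.CP
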