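import Pool.Agent.W982.CP.GeoB

/-!
# Project CP: the points of a rectangle are in convex position
-/

namespace Pool.Agent.W982.CP

/-- The horizontal coefficient of the functional of a point. -/
def al (n t r m k : ℕ) : ℚ :=
  if m = 0 then gA n t else if m = 1 then 8 * t * 2 ^ r + (t + 1 - 2 * (k + 1)) else 2 * k + 1

/-- The vertical coefficient of the functional of a point. -/
def be (n t c m k : ℕ) : ℚ :=
  if m = 0 then 2 * k + 1
  else if m = 1 then 8 * t * (4 * (gB n : ℚ) ^ (c + 1)) - (t + 1 - 2 * (k + 1)) else gA n t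

/-- The facts about the parameters that are used. -/
structure Fct (t A D P Q : ℚ) : Prop where
  t1 : 1 ≤ t
  hA : A = 64 * t * D
  D1 : 32 ≤ D
  P1 : 1 ≤ P
  PD : P ≤ 4 * D
  Q1 : 1 ≤ Q
  QD : Q ≤ D

theorem fct {n t c r k : ℕ} (hc : c < n) (hr : r < n) (hk : k < t) :
    Fct t (gA n t) ((gB n : ℚ) ^ n) (4 * (gB n : ℚ) ^ (c + 1)) (2 ^ r) := by
  have P := pars (show 0 < n by omega) (show 0 < t by omega)
  obtain ⟨h1, h2⟩ := colpow hc
  obtain ⟨h3, h4⟩ := rowpow hr
  have h5 := P.eB
  have h6 := P.W2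
  have h7 := P.BD
  exact ⟨P.t1, P.eA, by linarith, by linarith, by linarith, h3, by linarith⟩

theorem ab_bounds {n t c r m k : ℕ} (hc : c < n) (hr : r < n) (hk : k < t) (hm : m < 3) :
    1 ≤ al n t r m k ∧ al n t r m k ≤ gA n t ∧ 1 ≤ be n t c m k ∧ be n t c m k ≤ gA n t := by
  obtain ⟨t1, hA, D1, P1, PD, Q1, QD⟩ := fct hc hr hk
  have hk' : (k : ℚ) + 1 ≤ t := by exact_mod_cast hk
  have hk0 : (0 : ℚ) ≤ k := Nat.cast_nonneg _
  unfold al be
  set P : ℚ := 4 * (gB n : ℚ) ^ (c + 1)
  set Q : ℚ := 2 ^ r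
  set D : ℚ := (gB n : ℚ) ^ n
  set A : ℚ := (gA n t : ℚ)
  have tD : (t : ℚ) * 32 ≤ t * D := by nlinarith
  have tP : (t : ℚ) ≤ t * P := by nlinarith
  have tQ : (t : ℚ) ≤ t * Q := by nlinarith
  have tP' : (t : ℚ) * P ≤ t * (4 * D) := by nlinarith
  have tQ' : (t : ℚ) * Q ≤ t * D := by nlinarith
  interval_cases m
  · simp only [if_true]
    refine ⟨by nlinarith, le_rfl, by linarith, by nlinarith⟩
  · simp only [one_ne_zero, if_false, if_true]
    refine ⟨by nlinarith, by nlinarith, by nlinarith, by nlinarith⟩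
  · simp only [OfNat.ofNat_ne_zero, OfNat.ofNat_ne_one, if_false]
    refine ⟨by linarith, by nlinarith, by nlinarith, le_rfl⟩

/-- Comparison of two points of the same blob. -/
theorem same_blob {n t c r m k m' k' : ℕ} (hc : c < n) (hr : r < n) (hk : k < t) (hm : m < 3)
    (hk' : k' < t) (hm' : m' < 3) (hne : ¬ (m' = m ∧ k' = k)) :
    al n t r m k * offX n t c m k + be n t c m k * offY n t r m k <
      al n t r m k * offX n t c m' k' + be n t c m k * offY n t r m' k' := by
  obtain ⟨t1, hA, D1, P1, PD, Q1, QD⟩ := fct hc hr hk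
  have k1 : (k : ℚ) + 1 ≤ t := by exact_mod_cast hk
  have k0 : (0 : ℚ) ≤ k := Nat.cast_nonneg _
  have l1 : (k' : ℚ) + 1 ≤ t := by exact_mod_cast hk'
  have l0 : (0 : ℚ) ≤ k' := Nat.cast_nonneg _
  have hsq : k' ≠ k → (1 : ℚ) ≤ ((k' : ℚ) - k) ^ 2 := by
    intro h
    rcases Nat.lt_or_gt_of_ne h with h' | h'
    · have : (k' : ℚ) + 1 ≤ k := by exact_mod_cast h'
      nlinarith
    · have : (k : ℚ) + 1 ≤ k' := by exact_mod_cast h'
      nlinarith
  unfold al be
  set P : ℚ := 4 * (gB n : ℚ) ^ (c + 1) with hP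
  set Q : ℚ := 2 ^ r with hQ
  set D : ℚ := (gB n : ℚ) ^ n
  set A : ℚ := (gA n t : ℚ) with hAd
  set T : ℚ := (t : ℚ) with hT
  set x : ℚ := (k : ℚ) with hx
  set y : ℚ := (k' : ℚ) with hy
  have tD : T * 32 ≤ T * D := by nlinarith
  have hA1 : 2048 ≤ A := by nlinarith
  have hAT : 2048 * T ≤ A := by nlinarith
  have htt : 0 ≤ (T - 1 - x) ^ 2 := sq_nonneg _
  interval_cases m <;> interval_cases m' <;>
    simp only [if_true, one_ne_zero, if_false, OfNat.ofNat_ne_zero, OfNat.ofNat_ne_one]
  · -- V V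
    rw [offX0, offX0, offY0 hk, offY0 hk']
    have h1 := hsq (fun h => hne ⟨rfl, h⟩)
    have : A * (y * (y + 1)) + (2 * x + 1) * ((T - 1 - y) * A + T * (T - 1) + Q * (8 * T * (T + 1)))
        - (A * (x * (x + 1)) + (2 * x + 1) * ((T - 1 - x) * A + T * (T - 1) + Q * (8 * T * (T + 1))))
        = A * (y - x) ^ 2 := by ring
    nlinarith
  · -- V M
    rw [offX0, offX1 hk', offY0 hk, offY1 hk']
    have e : A * (T * (T - 1) + (y + 1) * (8 * T * P + (y + 1) - (T + 1))) +
        (2 * x + 1) * (T * (T - 1) + (T - y) * (8 * T * Q - (y + 1))) -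
        (A * (x * (x + 1)) + (2 * x + 1) *
          ((T - 1 - x) * A + T * (T - 1) + Q * (8 * T * (T + 1)))) =
        A * (T - 1 - x) ^ 2 + (y + 1) * (A * (8 * T * P + (y + 1) - (T + 1)) -
          (2 * x + 1) * (8 * T * Q + (T + 1) - (y + 1))) := by ring
    have h1 : (2 * x + 1) * (8 * T * Q + (T + 1) - (y + 1)) ≤ 2 * T * (8 * T * Q + T) := by
      apply mul_le_mul
      · linarith
      · linarith
      · nlinarith
      · linarith
    have h2 : A * (8 * T * P - T) ≤ A * (8 * T * P + (y + 1) - (T + 1)) := by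
      apply mul_le_mul_of_nonneg_left _ (by linarith)
      linarith
    have h3 : 2 * T * (8 * T * Q + T) < A * (8 * T * P - T) := by
      have e1 : 2 * T * (8 * T * Q + T) = T * (T * (16 * Q + 2)) := by ring
      have e2 : A * (8 * T * P - T) = T * (T * (64 * D * (8 * P - 1))) := by rw [hA]; ring
      rw [e1, e2]
      apply mul_lt_mul_of_pos_left _ (by linarith)
      apply mul_lt_mul_of_pos_left _ (by linarith)
      nlinarith
    have h4 : 0 < (y + 1) * (A * (8 * T * P + (y + 1) - (T + 1)) -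
          (2 * x + 1) * (8 * T * Q + (T + 1) - (y + 1))) :=
      mul_pos (by linarith) (by linarith)
    have h5 : 0 ≤ A * (T - 1 - x) ^ 2 := mul_nonneg (by linarith) htt
    linarith
  · -- V U
    rw [offX0, offX2 hk', offY0 hk, offY2]
    have e : A * ((T - 1 - y) * A + T * (T - 1) + P * (8 * T * (T + 1))) +
        (2 * x + 1) * (y * (y + 1)) -
        (A * (x * (x + 1)) + (2 * x + 1) *
          ((T - 1 - x) * A + T * (T - 1) + Q * (8 * T * (T + 1)))) =
        A * (T - 1 - x) ^ 2 + A * ((T - 1 - y) * A) + (2 * x + 1) * (y * (y + 1)) +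
          (A * (P * (8 * T * (T + 1))) -
            (2 * x + 1) * (T * (T - 1) + Q * (8 * T * (T + 1)))) := by ring
    have h1 : (2 * x + 1) * (T * (T - 1) + Q * (8 * T * (T + 1))) ≤
        2 * T * (T * (T - 1) + Q * (8 * T * (T + 1))) := by
      apply mul_le_mul_of_nonneg_right (by linarith)
      have : 0 ≤ T * (T - 1) := mul_nonneg (by linarith) (by linarith)
      have : 0 ≤ Q * (8 * T * (T + 1)) := by positivity
      linarith
    have h3 : 2 * T * (T * (T - 1) + Q * (8 * T * (T + 1))) < A * (P * (8 * T * (T + 1))) := by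
      have e1 : 2 * T * (T * (T - 1) + Q * (8 * T * (T + 1))) =
        T * (T * (2 * (T - 1) + 16 * Q * (T + 1))) := by ring
      have e2 : A * (P * (8 * T * (T + 1))) = T * (T * (512 * D * P * (T + 1))) := by rw [hA]; ring
      rw [e1, e2]
      apply mul_lt_mul_of_pos_left _ (by linarith)
      apply mul_lt_mul_of_pos_left _ (by linarith)
      have h6 : D ≤ D * P := by nlinarith
      have h7 : (2 + 16 * Q) * (T + 1) < 512 * D * P * (T + 1) := by
        apply mul_lt_mul_of_pos_right _ (by linarith)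
        nlinarith
      nlinarith
    have h4 : 0 ≤ A * ((T - 1 - y) * A) :=
      mul_nonneg (by linarith) (mul_nonneg (by linarith) (by linarith))
    have h5 : 0 ≤ A * (T - 1 - x) ^ 2 := mul_nonneg (by linarith) htt
    have h6 : 0 ≤ (2 * x + 1) * (y * (y + 1)) := by positivity
    linarith
  · -- M V
    rw [offX1 hk, offX0, offY1 hk, offY0 hk']
    have e : (8 * T * Q + (T + 1 - 2 * (x + 1))) * (y * (y + 1)) +
        (8 * T * P - (T + 1 - 2 * (x + 1))) *
          ((T - 1 - y) * A + T * (T - 1) + Q * (8 * T * (T + 1))) -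
        ((8 * T * Q + (T + 1 - 2 * (x + 1))) *
            (T * (T - 1) + (x + 1) * (8 * T * P + (x + 1) - (T + 1))) +
          (8 * T * P - (T + 1 - 2 * (x + 1))) *
            (T * (T - 1) + (T - x) * (8 * T * Q - (x + 1)))) =
        8 * T * (P + Q) * (x + 1) ^ 2 + (T - 1 - y) *
          ((8 * T * P - (T + 1 - 2 * (x + 1))) * A -
            (8 * T * Q + (T + 1 - 2 * (x + 1))) * (T + y)) := by ring
    have h1 : (8 * T * Q + (T + 1 - 2 * (x + 1))) * (T + y) ≤ (9 * T * Q) * (2 * T) := by
      apply mul_le_mul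
      · nlinarith
      · linarith
      · linarith
      · positivity
    have h2 : (7 * T * P) * A ≤ (8 * T * P - (T + 1 - 2 * (x + 1))) * A := by
      apply mul_le_mul_of_nonneg_right _ (by linarith)
      nlinarith
    have h3 : (9 * T * Q) * (2 * T) ≤ (7 * T * P) * A := by
      have e1 : (9 * T * Q) * (2 * T) = T * (T * (18 * Q)) := by ring
      have e2 : (7 * T * P) * A = T * (T * (448 * D * P)) := by rw [hA]; ring
      rw [e1, e2]
      apply mul_le_mul_of_nonneg_left _ (by linarith)
      apply mul_le_mul_of_nonneg_left _ (by linarith)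
      nlinarith
    have h4 : 0 ≤ (T - 1 - y) *
          ((8 * T * P - (T + 1 - 2 * (x + 1))) * A -
            (8 * T * Q + (T + 1 - 2 * (x + 1))) * (T + y)) :=
      mul_nonneg (by linarith) (by linarith)
    have h5 : 0 < 8 * T * (P + Q) * (x + 1) ^ 2 := by positivity
    linarith
  · -- M M
    rw [offX1 hk, offX1 hk', offY1 hk, offY1 hk']
    have h1 := hsq (fun h => hne ⟨rfl, h⟩)
    have e : (8 * T * Q + (T + 1 - 2 * (x + 1))) *
            (T * (T - 1) + (y + 1) * (8 * T * P + (y + 1) - (T + 1))) +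
          (8 * T * P - (T + 1 - 2 * (x + 1))) *
            (T * (T - 1) + (T - y) * (8 * T * Q - (y + 1))) -
        ((8 * T * Q + (T + 1 - 2 * (x + 1))) *
            (T * (T - 1) + (x + 1) * (8 * T * P + (x + 1) - (T + 1))) +
          (8 * T * P - (T + 1 - 2 * (x + 1))) *
            (T * (T - 1) + (T - x) * (8 * T * Q - (x + 1)))) =
        8 * T * (P + Q) * (y - x) ^ 2 := by ring
    have h5 : 0 < 8 * T * (P + Q) * (y - x) ^ 2 := by
      have : 0 < 8 * T * (P + Q) := by positivity
      nlinarith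
    linarith
  · -- M U
    rw [offX1 hk, offX2 hk', offY1 hk, offY2]
    have e : (8 * T * Q + (T + 1 - 2 * (x + 1))) *
          ((T - 1 - y) * A + T * (T - 1) + P * (8 * T * (T + 1))) +
        (8 * T * P - (T + 1 - 2 * (x + 1))) * (y * (y + 1)) -
        ((8 * T * Q + (T + 1 - 2 * (x + 1))) *
            (T * (T - 1) + (x + 1) * (8 * T * P + (x + 1) - (T + 1))) +
          (8 * T * P - (T + 1 - 2 * (x + 1))) *
            (T * (T - 1) + (T - x) * (8 * T * Q - (x + 1)))) =
        8 * T * (P + Q) * (T - x) ^ 2 + (T - 1 - y) *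
          ((8 * T * Q + (T + 1 - 2 * (x + 1))) * A -
            (8 * T * P - (T + 1 - 2 * (x + 1))) * (T + y)) := by ring
    have h1 : (8 * T * P - (T + 1 - 2 * (x + 1))) * (T + y) ≤ (9 * T * P) * (2 * T) := by
      apply mul_le_mul
      · nlinarith
      · linarith
      · linarith
      · positivity
    have h2 : (7 * T * Q) * A ≤ (8 * T * Q + (T + 1 - 2 * (x + 1))) * A := by
      apply mul_le_mul_of_nonneg_right _ (by linarith)
      nlinarith
    have h3 : (9 * T * P) * (2 * T) ≤ (7 * T * Q) * A := by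
      have e1 : (9 * T * P) * (2 * T) = T * (T * (18 * P)) := by ring
      have e2 : (7 * T * Q) * A = T * (T * (448 * D * Q)) := by rw [hA]; ring
      rw [e1, e2]
      apply mul_le_mul_of_nonneg_left _ (by linarith)
      apply mul_le_mul_of_nonneg_left _ (by linarith)
      nlinarith
    have h4 : 0 ≤ (T - 1 - y) *
          ((8 * T * Q + (T + 1 - 2 * (x + 1))) * A -
            (8 * T * P - (T + 1 - 2 * (x + 1))) * (T + y)) :=
      mul_nonneg (by linarith) (by linarith)
    have h5 : 0 < 8 * T * (P + Q) * (T - x) ^ 2 := by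
      have : 0 < T - x := by linarith
      positivity
    linarith
  · -- U V
    rw [offX2 hk, offX0, offY2, offY0 hk']
    have e : (2 * x + 1) * (y * (y + 1)) +
        A * ((T - 1 - y) * A + T * (T - 1) + Q * (8 * T * (T + 1))) -
        ((2 * x + 1) * ((T - 1 - x) * A + T * (T - 1) + P * (8 * T * (T + 1))) +
          A * (x * (x + 1))) =
        A * (T - 1 - x) ^ 2 + A * ((T - 1 - y) * A) + (2 * x + 1) * (y * (y + 1)) +
          (A * (Q * (8 * T * (T + 1))) -
            (2 * x + 1) * (T * (T - 1) + P * (8 * T * (T + 1)))) := by ring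
    have h1 : (2 * x + 1) * (T * (T - 1) + P * (8 * T * (T + 1))) ≤
        2 * T * (T * (T - 1) + P * (8 * T * (T + 1))) := by
      apply mul_le_mul_of_nonneg_right (by linarith)
      have : 0 ≤ T * (T - 1) := mul_nonneg (by linarith) (by linarith)
      have : 0 ≤ P * (8 * T * (T + 1)) := by positivity
      linarith
    have h3 : 2 * T * (T * (T - 1) + P * (8 * T * (T + 1))) < A * (Q * (8 * T * (T + 1))) := by
      have e1 : 2 * T * (T * (T - 1) + P * (8 * T * (T + 1))) =
        T * (T * (2 * (T - 1) + 16 * P * (T + 1))) := by ring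
      have e2 : A * (Q * (8 * T * (T + 1))) = T * (T * (512 * D * Q * (T + 1))) := by rw [hA]; ring
      rw [e1, e2]
      apply mul_lt_mul_of_pos_left _ (by linarith)
      apply mul_lt_mul_of_pos_left _ (by linarith)
      have h6 : D ≤ D * Q := by nlinarith
      have h7 : (2 + 16 * P) * (T + 1) < 512 * D * Q * (T + 1) := by
        apply mul_lt_mul_of_pos_right _ (by linarith)
        nlinarith
      nlinarith
    have h4 : 0 ≤ A * ((T - 1 - y) * A) :=
      mul_nonneg (by linarith) (mul_nonneg (by linarith) (by linarith))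
    have h5 : 0 ≤ A * (T - 1 - x) ^ 2 := mul_nonneg (by linarith) htt
    have h6 : 0 ≤ (2 * x + 1) * (y * (y + 1)) := by positivity
    linarith
  · -- U M
    rw [offX2 hk, offX1 hk', offY2, offY1 hk']
    have e : (2 * x + 1) * (T * (T - 1) + (y + 1) * (8 * T * P + (y + 1) - (T + 1))) +
        A * (T * (T - 1) + (T - y) * (8 * T * Q - (y + 1))) -
        ((2 * x + 1) * ((T - 1 - x) * A + T * (T - 1) + P * (8 * T * (T + 1))) +
          A * (x * (x + 1))) =
        A * (T - 1 - x) ^ 2 + (T - y) * (A * (8 * T * Q - (y + 1)) -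
          (2 * x + 1) * (8 * T * P + (y + 1))) := by ring
    have h1 : (2 * x + 1) * (8 * T * P + (y + 1)) ≤ 2 * T * (8 * T * P + T) := by
      apply mul_le_mul
      · linarith
      · linarith
      · positivity
      · linarith
    have h2 : A * (8 * T * Q - T) ≤ A * (8 * T * Q - (y + 1)) := by
      apply mul_le_mul_of_nonneg_left _ (by linarith)
      linarith
    have h3 : 2 * T * (8 * T * P + T) < A * (8 * T * Q - T) := by
      have e1 : 2 * T * (8 * T * P + T) = T * (T * (16 * P + 2)) := by ring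
      have e2 : A * (8 * T * Q - T) = T * (T * (64 * D * (8 * Q - 1))) := by rw [hA]; ring
      rw [e1, e2]
      apply mul_lt_mul_of_pos_left _ (by linarith)
      apply mul_lt_mul_of_pos_left _ (by linarith)
      nlinarith
    have h4 : 0 < (T - y) * (A * (8 * T * Q - (y + 1)) -
          (2 * x + 1) * (8 * T * P + (y + 1))) :=
      mul_pos (by linarith) (by linarith)
    have h5 : 0 ≤ A * (T - 1 - x) ^ 2 := mul_nonneg (by linarith) htt
    linarith
  · -- U U
    rw [offX2 hk, offX2 hk', offY2, offY2]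
    have h1 := hsq (fun h => hne ⟨rfl, h⟩)
    have : (2 * x + 1) * ((T - 1 - y) * A + T * (T - 1) + P * (8 * T * (T + 1))) + A * (y * (y + 1))
        - ((2 * x + 1) * ((T - 1 - x) * A + T * (T - 1) + P * (8 * T * (T + 1))) +
          A * (x * (x + 1))) = A * (y - x) ^ 2 := by ring
    nlinarith

end Pool.Agent.W982.CP
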