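import Pool.Agent.W982.CP.GeoB
import Pool.Agent.W982.CP.Rect

/-!
# Project CP: the diagonal chain
-/

namespace Pool.Agent.W982.CP

theorem t_FM : S_WEDGE → S_FM := by
  intro hW n t T hT b b' hb4 hbb hc hr hc' hr' i j k m' k' hij hjk hkt hm' hk' pi pj pk pz
  have hxs : xs b' = xs b := by unfold xs; rw [hbb]
  have hys : ys b' = ys b := by unfold ys; rw [hbb]
  have hj : j < t := by omega
  have hi : i < t := by omega
  have P := pars (show 0 < n by omega) (show 0 < t by omega)
  obtain ⟨t1, hA, D1, P1, PD, Q1, QD⟩ := fct (k := i) hc hr hi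
  obtain ⟨z1, z2, z3, z4, z5⟩ := ZR (show 0 < n by omega) (show 0 < t by omega)
  obtain ⟨c1, c2⟩ := colpow hc
  obtain ⟨c1', c2'⟩ := colpow hc'
  obtain ⟨r1, r2⟩ := rowpow hr
  obtain ⟨r1', r2'⟩ := rowpow hr'
  have eB := P.eB
  have w2 := P.W2
  have x2 := offX_le hc' hk' hm'
  have y2 := offY_le hr' hk' hm'
  have x20 : (0 : ℚ) ≤ offX n t (col b') m' k' := Nat.cast_nonneg _
  have y20 : (0 : ℚ) ≤ offY n t (row b') m' k' := Nat.cast_nonneg _
  -- the orientation of two chain points and a third point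
  have key : ∀ i j : ℕ, i < j → j < t → ∀ z : ℚ × ℚ,
      orient (fr b (pt n t b 1 i)) (fr b (pt n t b 1 j)) z =
        -((j : ℚ) - i) *
        ((8 * t * 2 ^ row b + (t - 1 - i - j)) * (z.1 - (fr b (pt n t b 1 i)).1) +
         (8 * t * (4 * (gB n : ℚ) ^ (col b + 1)) - (t - 1 - i - j)) *
          (z.2 - (fr b (pt n t b 1 i)).2)) := by
    intro i j hij hj z
    unfold orient
    rw [frx_same rfl hc (show i < t by omega) (by norm_num), frx_same rfl hc hj (by norm_num),
      fry_same rfl hr (show i < t by omega) (by norm_num), fry_same rfl hr hj (by norm_num),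
      offX1 (show i < t by omega), offX1 hj, offY1 (show i < t by omega), offY1 hj]
    ring
  have hconv : 0 < orient (fr b (pt n t b 1 i)) (fr b (pt n t b 1 j)) (fr b (pt n t b 1 k)) := by
    rw [key i j hij hj, frx_same rfl hc hkt (by norm_num), frx_same rfl hc hi (by norm_num),
      fry_same rfl hr hkt (by norm_num), fry_same rfl hr hi (by norm_num),
      offX1 hkt, offX1 hi, offY1 hkt, offY1 hi]
    have e : -((j : ℚ) - i) *
        ((8 * t * 2 ^ row b + (t - 1 - i - j)) *
          (gR n t * (gB n : ℚ) ^ (col b + 1) -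
              (t * (t - 1) + (k + 1) * (8 * t * (4 * (gB n : ℚ) ^ (col b + 1)) + (k + 1) -
                (t + 1))) -
            (gR n t * (gB n : ℚ) ^ (col b + 1) -
              (t * (t - 1) + (i + 1) * (8 * t * (4 * (gB n : ℚ) ^ (col b + 1)) + (i + 1) -
                (t + 1))))) +
         (8 * t * (4 * (gB n : ℚ) ^ (col b + 1)) - (t - 1 - i - j)) *
          (gR n t * (2 * 2 ^ n - 2 ^ row b) -
              (t * (t - 1) + (t - k) * (8 * t * (2 : ℚ) ^ row b - (k + 1))) -
            (gR n t * (2 * 2 ^ n - 2 ^ row b) -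
              (t * (t - 1) + (t - i) * (8 * t * (2 : ℚ) ^ row b - (i + 1)))))) =
        ((j : ℚ) - i) * (k - i) * (k - j) *
          (8 * t * (4 * (gB n : ℚ) ^ (col b + 1) + 2 ^ row b)) := by ring
    rw [e]
    have h1 : (0 : ℚ) < (j : ℚ) - i := by
      have : (i : ℚ) < j := by exact_mod_cast hij
      linarith
    have h2 : (0 : ℚ) < (k : ℚ) - j := by
      have : (j : ℚ) < k := by exact_mod_cast hjk
      linarith
    have h3 : (0 : ℚ) < (k : ℚ) - i := by linarith
    have h4 : (0 : ℚ) < 8 * t * (4 * (gB n : ℚ) ^ (col b + 1) + 2 ^ row b) := by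
      apply mul_pos
      · linarith
      · linarith
    positivity
  -- it is enough to show that the bracket is positive
  have red : ∀ (hpos : ∀ i j : ℕ, i < j → j < t →
      0 < (8 * t * 2 ^ row b + ((t : ℚ) - 1 - i - j)) *
          ((fr b (pt n t b' m' k')).1 - (fr b (pt n t b 1 i)).1) +
         (8 * t * (4 * (gB n : ℚ) ^ (col b + 1)) - ((t : ℚ) - 1 - i - j)) *
          ((fr b (pt n t b' m' k')).2 - (fr b (pt n t b 1 i)).2)), False := by
    intro hpos
    refine wedge_fr hW hT b pi pj pk pz hconv ?_ ?_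
    · rw [key i j hij hj]
      have h1 : (i : ℚ) < j := by exact_mod_cast hij
      have := hpos i j hij hj
      nlinarith
    · rw [key j k hjk hkt]
      have h1 : (j : ℚ) < k := by exact_mod_cast hjk
      have := hpos j k hjk hkt
      nlinarith
  -- bounds for the coefficients
  have coef : ∀ i j : ℕ, i < j → j < t →
      7 * t * 2 ^ row b ≤ (8 * t * 2 ^ row b + ((t : ℚ) - 1 - i - j)) ∧
      (8 * t * 2 ^ row b + ((t : ℚ) - 1 - i - j)) ≤ 9 * t * 2 ^ row b ∧
      7 * t * (4 * (gB n : ℚ) ^ (col b + 1)) ≤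
        (8 * t * (4 * (gB n : ℚ) ^ (col b + 1)) - ((t : ℚ) - 1 - i - j)) ∧
      (8 * t * (4 * (gB n : ℚ) ^ (col b + 1)) - ((t : ℚ) - 1 - i - j)) ≤
        9 * t * (4 * (gB n : ℚ) ^ (col b + 1)) := by
    intro i j hij hj
    have h1 : (i : ℚ) + 1 ≤ j := by exact_mod_cast hij
    have h2 : (j : ℚ) + 1 ≤ t := by exact_mod_cast hj
    have h3 : (0 : ℚ) ≤ i := Nat.cast_nonneg _
    have h4 : (t : ℚ) ≤ t * 2 ^ row b := by nlinarith
    have h5 : (t : ℚ) ≤ t * (4 * (gB n : ℚ) ^ (col b + 1)) := by nlinarith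
    refine ⟨by linarith, by linarith, by linarith, by linarith⟩
  have hx : ∀ i : ℕ, i < t → (fr b (pt n t b' m' k')).1 - (fr b (pt n t b 1 i)).1 ≥
      gR n t * ((gB n : ℚ) ^ (col b' + 1) - (gB n : ℚ) ^ (col b + 1)) - gZ n t := by
    intro i hi
    rw [frx_same hxs hc' hk' hm', frx_same rfl hc hi (by norm_num)]
    have : (0 : ℚ) ≤ offX n t (col b) 1 i := Nat.cast_nonneg _
    linarith
  have hy : ∀ i : ℕ, i < t → (fr b (pt n t b' m' k')).2 - (fr b (pt n t b 1 i)).2 ≥
      gR n t * (2 ^ row b - 2 ^ row b') - gZ n t := by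
    intro i hi
    rw [fry_same hys hr' hk' hm', fry_same rfl hr hi (by norm_num)]
    have : (0 : ℚ) ≤ offY n t (row b) 1 i := Nat.cast_nonneg _
    linarith
  by_contra hcon
  rw [not_and_or, not_le, not_le] at hcon
  rcases hcon with hcol | hrow
  · -- a column to the right
    apply red
    intro i j hij hj
    obtain ⟨k1, k2, k3, k4⟩ := coef i j hij hj
    have h5 := colpow_lt (n := n) hcol
    have hx' := hx i (by omega)
    have hy' := hy i (by omega)
    set α : ℚ := (8 * t * 2 ^ row b + ((t : ℚ) - 1 - i - j))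
    set β : ℚ := (8 * t * (4 * (gB n : ℚ) ^ (col b + 1)) - ((t : ℚ) - 1 - i - j))
    set dx : ℚ := (fr b (pt n t b' m' k')).1 - (fr b (pt n t b 1 i)).1
    set dy : ℚ := (fr b (pt n t b' m' k')).2 - (fr b (pt n t b 1 i)).2
    set C : ℚ := (gB n : ℚ) ^ (col b + 1)
    set C' : ℚ := (gB n : ℚ) ^ (col b' + 1)
    set W : ℚ := 2 ^ n
    set R : ℚ := (gR n t : ℚ)
    set Z : ℚ := (gZ n t : ℚ)
    set A : ℚ := (gA n t : ℚ)
    set Q : ℚ := 2 ^ row b
    set Q' : ℚ := 2 ^ row b'
    have C1 : 1 ≤ C := by linarith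
    have e1 : dx ≥ R * (C * (16 * W - 1)) - Z := by
      have h6 : C * (16 * W - 1) ≤ C' - C := by rw [eB] at h5; linarith
      have := mul_le_mul_of_nonneg_left h6 (show 0 ≤ R by linarith)
      linarith
    have e2 : dy ≥ -(R * (W / 2)) - Z := by
      have h6 : -(W / 2) ≤ Q - Q' := by linarith
      have := mul_le_mul_of_nonneg_left h6 (show 0 ≤ R by linarith)
      linarith
    have e3 : R * (C * (15 * W)) ≤ dx := by
      have h7 : 1 ≤ C * (W - 1) := by nlinarith
      have h8 : R * 1 ≤ R * (C * (W - 1)) := mul_le_mul_of_nonneg_left h7 (by linarith)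
      nlinarith
    have e4 : -(R * (W * (9 / 16))) ≤ dy := by nlinarith
    have e5 : α * dx ≥ (7 * t) * (R * (C * (15 * W))) := by
      apply mul_le_mul _ e3 _ (by nlinarith)
      · nlinarith
      · positivity
    have e6 : β * dy ≥ -((9 * t * (4 * C)) * (R * (W * (9 / 16)))) := by
      have h9 : β * (R * (W * (9 / 16))) ≤ (9 * t * (4 * C)) * (R * (W * (9 / 16))) :=
        mul_le_mul_of_nonneg_right k4 (by positivity)
      have hβ : 0 ≤ β := by nlinarith
      nlinarith [mul_le_mul_of_nonneg_left e4 hβ]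
    have e7 : (9 * t * (4 * C)) * (R * (W * (9 / 16))) < (7 * t) * (R * (C * (15 * W))) := by
      have h10 : 0 < (t : ℚ) * (R * (C * W)) := by positivity
      nlinarith
    linarith
  · -- a row above
    apply red
    intro i j hij hj
    obtain ⟨k1, k2, k3, k4⟩ := coef i j hij hj
    have h5 := rowpow_lt hrow
    have hx' := hx i (by omega)
    have hy' := hy i (by omega)
    set α : ℚ := (8 * t * 2 ^ row b + ((t : ℚ) - 1 - i - j))
    set β : ℚ := (8 * t * (4 * (gB n : ℚ) ^ (col b + 1)) - ((t : ℚ) - 1 - i - j))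
    set dx : ℚ := (fr b (pt n t b' m' k')).1 - (fr b (pt n t b 1 i)).1
    set dy : ℚ := (fr b (pt n t b' m' k')).2 - (fr b (pt n t b 1 i)).2
    set C : ℚ := (gB n : ℚ) ^ (col b + 1)
    set C' : ℚ := (gB n : ℚ) ^ (col b' + 1)
    set W : ℚ := 2 ^ n
    set R : ℚ := (gR n t : ℚ)
    set Z : ℚ := (gZ n t : ℚ)
    set A : ℚ := (gA n t : ℚ)
    set Q : ℚ := 2 ^ row b
    set Q' : ℚ := 2 ^ row b'
    have C1 : 32 ≤ C := by linarith
    have hAge : 2048 ≤ A := by
      have : (1 : ℚ) * 32 ≤ t * (gB n : ℚ) ^ n := by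
        apply mul_le_mul t1 D1 (by norm_num) (by linarith)
      nlinarith
    have ZR' : 32768 * Z ≤ R := by nlinarith
    have e2 : dy ≥ R * (Q / 2) - Z := by
      have h6 : Q / 2 ≤ Q - Q' := by linarith
      have := mul_le_mul_of_nonneg_left h6 (show 0 ≤ R by linarith)
      linarith
    have e1 : dx ≥ -(R * C) - Z := by
      have h6 : -C ≤ C' - C := by linarith
      have := mul_le_mul_of_nonneg_left h6 (show 0 ≤ R by linarith)
      linarith
    have e3 : -(R * C * (33 / 32)) ≤ dx := by nlinarith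
    have e4 : R * Q * (15 / 32) ≤ dy := by nlinarith
    have e5 : β * dy ≥ (7 * t * (4 * C)) * (R * Q * (15 / 32)) := by
      apply mul_le_mul k3 e4 (by positivity) (by nlinarith)
    have e6 : α * dx ≥ -((9 * t * Q) * (R * C * (33 / 32))) := by
      have h9 : α * (R * C * (33 / 32)) ≤ (9 * t * Q) * (R * C * (33 / 32)) :=
        mul_le_mul_of_nonneg_right k2 (by positivity)
      have hα : 0 ≤ α := by nlinarith
      nlinarith [mul_le_mul_of_nonneg_left e3 hα]
    have e7 : (9 * t * Q) * (R * C * (33 / 32)) < (7 * t * (4 * C)) * (R * Q * (15 / 32)) := by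
      have h10 : 0 < (t : ℚ) * (Q * (R * C)) := by positivity
      nlinarith
    linarith

end Pool.Agent.W982.CP
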