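import Pool.Agent.W982.CP.Geo

/-!
# Project CP: base lemmas about the coordinates
-/

namespace Pool.Agent.W982.CP

/-- The sign of the horizontal coordinate. -/
def sgx (b : Blob) : ℚ := if b.2 = 1 ∨ b.2 = 2 then 1 else -1

/-- The sign of the vertical coordinate. -/
def sgy (b : Blob) : ℚ := if b.2 = 2 ∨ b.2 = 3 then 1 else -1

/-- The frame of the blob `b`: the plane reflected in such a way that `b` is at the top right. -/
def fr (b : Blob) (p : ℚ × ℚ) : ℚ × ℚ := (sgx b * p.1, sgy b * p.2)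

theorem sgx_sq (b : Blob) : sgx b * sgx b = 1 := by unfold sgx; split_ifs <;> norm_num
theorem sgy_sq (b : Blob) : sgy b * sgy b = 1 := by unfold sgy; split_ifs <;> norm_num
theorem sgx_cases (b : Blob) : sgx b = 1 ∨ sgx b = -1 := by unfold sgx; split_ifs <;> simp
theorem sgy_cases (b : Blob) : sgy b = 1 ∨ sgy b = -1 := by unfold sgy; split_ifs <;> simp

theorem sgx_eq {b b' : Blob} (h : xs b' = xs b) : sgx b' = sgx b := by
  unfold xs at h
  unfold sgx
  rw [decide_eq_decide] at h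
  simp only [h]

theorem sgy_eq {b b' : Blob} (h : ys b' = ys b) : sgy b' = sgy b := by
  unfold ys at h
  unfold sgy
  rw [decide_eq_decide] at h
  simp only [h]

theorem sgx_ne {b b' : Blob} (h : xs b' ≠ xs b) : sgx b' = - sgx b := by
  unfold xs at h
  unfold sgx
  rw [Ne, decide_eq_decide] at h
  by_cases h1 : b.2 = 1 ∨ b.2 = 2
  · have : ¬ (b'.2 = 1 ∨ b'.2 = 2) := fun h2 => h ⟨fun _ => h1, fun _ => h2⟩
    rw [if_pos h1, if_neg this]
  · have : (b'.2 = 1 ∨ b'.2 = 2) := by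
      by_contra h2
      exact h ⟨fun h3 => absurd h3 h2, fun h3 => absurd h3 h1⟩
    rw [if_neg h1, if_pos this]
    norm_num

theorem sgy_ne {b b' : Blob} (h : ys b' ≠ ys b) : sgy b' = - sgy b := by
  unfold ys at h
  unfold sgy
  rw [Ne, decide_eq_decide] at h
  by_cases h1 : b.2 = 2 ∨ b.2 = 3
  · have : ¬ (b'.2 = 2 ∨ b'.2 = 3) := fun h2 => h ⟨fun _ => h1, fun _ => h2⟩
    rw [if_pos h1, if_neg this]
  · have : (b'.2 = 2 ∨ b'.2 = 3) := by
      by_contra h2
      exact h ⟨fun h3 => absurd h3 h2, fun h3 => absurd h3 h1⟩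
    rw [if_neg h1, if_pos this]
    norm_num

theorem orient_fr (b : Blob) (u v w : ℚ × ℚ) :
    orient (fr b u) (fr b v) (fr b w) = sgx b * sgy b * orient u v w := by
  unfold orient fr
  simp only
  ring

/-- The wedge lemma in the frame of a blob. -/
theorem wedge_fr (hW : S_WEDGE) {T : List (ℚ × ℚ)} (hT : ConvPos T) (b : Blob)
    {u v w z : ℚ × ℚ} (hu : u ∈ T) (hv : v ∈ T) (hw : w ∈ T) (hz : z ∈ T)
    (h1 : 0 < orient (fr b u) (fr b v) (fr b w)) (h2 : orient (fr b u) (fr b v) (fr b z) < 0)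
    (h3 : orient (fr b v) (fr b w) (fr b z) < 0) : False := by
  rw [orient_fr] at h1 h2 h3
  obtain ⟨a1, a2⟩ := hW T hT u hu v hv w hw z hz
  have : sgx b * sgy b = 1 ∨ sgx b * sgy b = -1 := by
    rcases sgx_cases b with h | h <;> rcases sgy_cases b with h' | h' <;> rw [h, h'] <;> norm_num
  rcases this with h | h
  · rw [h] at h1 h2 h3
    exact a1 (by linarith) (by linarith) (by linarith)
  · rw [h] at h1 h2 h3
    exact a2 (by linarith) (by linarith) (by linarith)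

/-! ### The parameters, as rational numbers -/

/-- `B`, `D = B ^ n`, `A`, `Z`, `R`, `2 ^ n` and their relations. -/
structure Pars (n t : ℕ) (B D A Z R W : ℚ) : Prop where
  hB : (gB n : ℚ) = B
  hD : (gB n : ℚ) ^ n = D
  hA : (gA n t : ℚ) = A
  hZ : (gZ n t : ℚ) = Z
  hR : (gR n t : ℚ) = R
  hW : (2 : ℚ) ^ n = W
  eB : B = 16 * W
  eA : A = 64 * t * D
  eZ : Z = 2 * t * A
  eR : R = 16 * A * Z
  W2 : 2 ≤ W
  BD : B ≤ D
  t1 : (1 : ℚ) ≤ t

theorem pars {n t : ℕ} (hn : 0 < n) (ht : 0 < t) : Pars n t (gB n) ((gB n : ℚ) ^ n) (gA n t)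
    (gZ n t) (gR n t) (2 ^ n) where
  hB := rfl
  hD := rfl
  hA := rfl
  hZ := rfl
  hR := rfl
  hW := rfl
  eB := by unfold gB; push_cast; rw [pow_add]; norm_num; ring
  eA := by unfold gA; push_cast; ring
  eZ := by unfold gZ; push_cast; ring
  eR := by unfold gR; push_cast; ring
  W2 := by
    calc (2 : ℚ) = 2 ^ 1 := by norm_num
      _ ≤ 2 ^ n := pow_le_pow_right₀ (by norm_num) hn
  BD := by
    have h1 : (1 : ℚ) ≤ (gB n : ℚ) := by
      have : 1 ≤ gB n := Nat.one_le_two_pow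
      exact_mod_cast this
    calc (gB n : ℚ) = (gB n : ℚ) ^ 1 := by rw [pow_one]
      _ ≤ (gB n : ℚ) ^ n := pow_le_pow_right₀ h1 hn
  t1 := by exact_mod_cast ht

/-- The power of a column: `C = B ^ (c + 1)`. -/
theorem colpow {n c : ℕ} (hc : c < n) : (gB n : ℚ) ≤ (gB n : ℚ) ^ (c + 1) ∧
    (gB n : ℚ) ^ (c + 1) ≤ (gB n : ℚ) ^ n := by
  have h1 : (1 : ℚ) ≤ (gB n : ℚ) := by
    have : 1 ≤ gB n := Nat.one_le_two_pow
    exact_mod_cast this
  constructor
  · calc (gB n : ℚ) = (gB n : ℚ) ^ 1 := by rw [pow_one]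
      _ ≤ (gB n : ℚ) ^ (c + 1) := pow_le_pow_right₀ h1 (by omega)
  · exact pow_le_pow_right₀ h1 hc

theorem colpow_lt {n c c' : ℕ} (h : c < c') :
    (gB n : ℚ) * (gB n : ℚ) ^ (c + 1) ≤ (gB n : ℚ) ^ (c' + 1) := by
  have h1 : (1 : ℚ) ≤ (gB n : ℚ) := by
    have : 1 ≤ gB n := Nat.one_le_two_pow
    exact_mod_cast this
  rw [← pow_succ']
  exact pow_le_pow_right₀ h1 (by omega)

/-- The power of a row. -/
theorem rowpow {n r : ℕ} (hr : r < n) : (1 : ℚ) ≤ 2 ^ r ∧ 2 * (2 : ℚ) ^ r ≤ 2 ^ n := by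
  constructor
  · exact one_le_pow₀ (by norm_num)
  · rw [← pow_succ']
    exact pow_le_pow_right₀ (by norm_num) hr

theorem rowpow_lt {r r' : ℕ} (h : r < r') : 2 * (2 : ℚ) ^ r ≤ 2 ^ r' := by
  rw [← pow_succ']
  exact pow_le_pow_right₀ (by norm_num) h

/-! ### The offsets, as rational numbers -/

theorem offX0 (n t c k : ℕ) : (offX n t c 0 k : ℚ) = k * (k + 1) := by
  unfold offX; simp

theorem offY2 (n t r k : ℕ) : (offY n t r 2 k : ℚ) = k * (k + 1) := by
  unfold offY; simp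

theorem cast_tt {t : ℕ} (ht : 0 < t) : ((t * (t - 1) : ℕ) : ℚ) = t * (t - 1) := by
  rw [Nat.cast_mul, Nat.cast_sub ht]; norm_num

theorem offX1 {n t c k : ℕ} (hk : k < t) : (offX n t c 1 k : ℚ) =
    t * (t - 1) + (k + 1) * (8 * t * (4 * (gB n : ℚ) ^ (c + 1)) + (k + 1) - (t + 1)) := by
  unfold offX
  simp only [one_ne_zero, if_false, if_true]
  have h1 : 1 ≤ gB n ^ (c + 1) := Nat.one_le_pow _ _ (by unfold gB; positivity)
  have h2 : t + 1 ≤ 8 * t * (4 * gB n ^ (c + 1)) + (k + 1) := by nlinarith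
  rw [Nat.cast_add, cast_tt (by omega), Nat.cast_mul, Nat.cast_sub h2]
  push_cast
  ring

theorem offY1 {n t r k : ℕ} (hk : k < t) : (offY n t r 1 k : ℚ) =
    t * (t - 1) + (t - k) * (8 * t * (2 : ℚ) ^ r - (k + 1)) := by
  unfold offY
  simp only [one_ne_zero, if_false, if_true]
  have h1 : 1 ≤ 2 ^ r := Nat.one_le_two_pow
  have h2 : k + 1 ≤ 8 * t * 2 ^ r := by nlinarith
  rw [Nat.cast_add, cast_tt (by omega), Nat.cast_mul, Nat.cast_sub h2, Nat.cast_sub hk.le]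
  push_cast
  ring

theorem cast_t1k {t k : ℕ} (hk : k < t) : ((t - 1 - k : ℕ) : ℚ) = t - 1 - k := by
  rw [Nat.cast_sub (by omega), Nat.cast_sub (by omega)]; norm_num

theorem offX2 {n t c k : ℕ} (hk : k < t) : (offX n t c 2 k : ℚ) =
    (t - 1 - k) * gA n t + t * (t - 1) + 4 * (gB n : ℚ) ^ (c + 1) * (8 * t * (t + 1)) := by
  unfold offX
  simp only [OfNat.ofNat_ne_zero, OfNat.ofNat_ne_one, if_false]
  rw [Nat.cast_add, Nat.cast_add, cast_tt (by omega), Nat.cast_mul, cast_t1k hk]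
  push_cast
  ring

theorem offY0 {n t r k : ℕ} (hk : k < t) : (offY n t r 0 k : ℚ) =
    (t - 1 - k) * gA n t + t * (t - 1) + (2 : ℚ) ^ r * (8 * t * (t + 1)) := by
  unfold offY
  simp only [if_true]
  rw [Nat.cast_add, Nat.cast_add, cast_tt (by omega), Nat.cast_mul, cast_t1k hk]
  push_cast
  ring

end Pool.Agent.W982.CP
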