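import Pool.Agent.W982.CP.GeoA

/-!
# Project CP: bounds for the offsets, and the points in a frame
-/

namespace Pool.Agent.W982.CP

theorem offX_le {n t c m k : ℕ} (hc : c < n) (hk : k < t) (hm : m < 3) :
    (offX n t c m k : ℚ) ≤ gZ n t := by
  have P := pars (show 0 < n by omega) (show 0 < t by omega)
  obtain ⟨h1, h2⟩ := colpow hc
  have h3 := P.eA
  have h4 := P.eZ
  have h5 := P.t1
  have h6 := P.BD
  have h7 := P.W2
  have h8 := P.eB
  have hk' : (k : ℚ) + 1 ≤ t := by exact_mod_cast hk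
  have hk0 : (0 : ℚ) ≤ k := Nat.cast_nonneg _
  set C : ℚ := (gB n : ℚ) ^ (c + 1)
  set D : ℚ := (gB n : ℚ) ^ n
  set A : ℚ := (gA n t : ℚ)
  have hD : 32 ≤ D := by linarith
  have hC : 32 ≤ C := by linarith
  have e1 : (t : ℚ) * t ≤ t * t * D := by nlinarith [mul_nonneg (by linarith : (0:ℚ) ≤ t) (by linarith : (0:ℚ) ≤ t)]
  have hZ : (gZ n t : ℚ) = 128 * (t * t * D) := by rw [h4, h3]; ring
  have htt : (0 : ℚ) < t * t := by positivity
  interval_cases m
  · rw [offX0, hZ]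
    nlinarith
  · rw [offX1 hk, hZ]
    have e2 : ((k : ℚ) + 1) * (8 * t * (4 * C) + (k + 1) - (t + 1)) ≤ t * (8 * t * (4 * D)) := by
      have e3 : 8 * t * (4 * C) + ((k : ℚ) + 1) - (t + 1) ≤ 8 * t * (4 * D) := by nlinarith
      have e4 : 0 ≤ 8 * t * (4 * C) + ((k : ℚ) + 1) - (t + 1) := by nlinarith
      exact mul_le_mul hk' e3 e4 (by linarith)
    nlinarith
  · rw [offX2 hk]
    have e2 : ((t : ℚ) - 1 - k) * A ≤ (t - 1) * A := by
      have : 0 ≤ A := by rw [h3]; positivity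
      nlinarith
    have e3 : 4 * C * (8 * t * ((t : ℚ) + 1)) ≤ 4 * D * (8 * t * (t + 1)) := by
      have : (0 : ℚ) ≤ 8 * t * (t + 1) := by positivity
      nlinarith
    have e4 : (t : ℚ) * (t - 1) + 4 * D * (8 * t * (t + 1)) ≤ t * A := by
      rw [h3]
      have : (0 : ℚ) ≤ t * (t - 1) := mul_nonneg (by linarith) (by linarith)
      nlinarith
    have e5 : 0 ≤ A := by rw [h3]; positivity
    rw [h4]
    nlinarith

theorem offY_le {n t r m k : ℕ} (hr : r < n) (hk : k < t) (hm : m < 3) :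
    (offY n t r m k : ℚ) ≤ gZ n t := by
  have P := pars (show 0 < n by omega) (show 0 < t by omega)
  obtain ⟨h1, h2⟩ := rowpow hr
  have h3 := P.eA
  have h4 := P.eZ
  have h5 := P.t1
  have h6 := P.BD
  have h7 := P.W2
  have h8 := P.eB
  have hk' : (k : ℚ) + 1 ≤ t := by exact_mod_cast hk
  have hk0 : (0 : ℚ) ≤ k := Nat.cast_nonneg _
  set Q : ℚ := (2 : ℚ) ^ r
  set D : ℚ := (gB n : ℚ) ^ n
  set A : ℚ := (gA n t : ℚ)
  have hD : 32 ≤ D := by linarith
  have hQ : 32 * Q ≤ D := by linarith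
  have hZ : (gZ n t : ℚ) = 128 * (t * t * D) := by rw [h4, h3]; ring
  have htt : (0 : ℚ) < t * t := by positivity
  interval_cases m
  · rw [offY0 hk]
    have e2 : ((t : ℚ) - 1 - k) * A ≤ (t - 1) * A := by
      have : 0 ≤ A := by rw [h3]; positivity
      nlinarith
    have e3 : Q * (8 * t * ((t : ℚ) + 1)) ≤ D * (8 * t * (t + 1)) := by
      have : (0 : ℚ) ≤ 8 * t * (t + 1) := by positivity
      nlinarith
    have e4 : (t : ℚ) * (t - 1) + D * (8 * t * (t + 1)) ≤ t * A := by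
      rw [h3]
      have : (0 : ℚ) ≤ t * (t - 1) := mul_nonneg (by linarith) (by linarith)
      nlinarith
    have e5 : 0 ≤ A := by rw [h3]; positivity
    rw [h4]
    nlinarith
  · rw [offY1 hk, hZ]
    have e2 : ((t : ℚ) - k) * (8 * t * Q - (k + 1)) ≤ t * (8 * t * D) := by
      have e3 : 8 * t * Q - ((k : ℚ) + 1) ≤ 8 * t * D := by nlinarith
      have e4 : 0 ≤ 8 * t * Q - ((k : ℚ) + 1) := by nlinarith
      exact mul_le_mul (by linarith) e3 e4 (by linarith)
    nlinarith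
  · rw [offY2, hZ]
    nlinarith

theorem ZR {n t : ℕ} (hn : 0 < n) (ht : 0 < t) : (1 : ℚ) ≤ gA n t ∧ (1 : ℚ) ≤ gZ n t ∧
    16 * (gA n t : ℚ) * gZ n t = gR n t ∧ 16 * (gZ n t : ℚ) ≤ gR n t ∧ (1 : ℚ) ≤ gR n t := by
  have P := pars hn ht
  have h3 := P.eA
  have h4 := P.eZ
  have h5 := P.t1
  have h6 := P.BD
  have h7 := P.W2
  have h8 := P.eB
  have h9 := P.eR
  have hA : (1 : ℚ) ≤ gA n t := by rw [h3]; nlinarith
  have hZ : (1 : ℚ) ≤ gZ n t := by rw [h4]; nlinarith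
  refine ⟨hA, hZ, h9.symm, ?_, ?_⟩
  · rw [h9]; nlinarith
  · rw [h9]; nlinarith

theorem pt_fst {n t : ℕ} {b : Blob} {m k : ℕ} (hc : col b < n) (hk : k < t) (hm : m < 3) :
    (pt n t b m k).1 = sgx b * (gR n t * (gB n : ℚ) ^ (col b + 1) - offX n t (col b) m k) := by
  unfold pt sgx
  simp only
  congr 1
  have h1 := offX_le hc hk hm
  obtain ⟨_, _, _, h2, h3⟩ := ZR (show 0 < n by omega) (show 0 < t by omega)
  have h4 : (1 : ℚ) ≤ (gB n : ℚ) ^ (col b + 1) := one_le_pow₀ (by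
    have : 1 ≤ gB n := Nat.one_le_two_pow
    exact_mod_cast this)
  have h5 : offX n t (col b) m k ≤ gR n t * gB n ^ (col b + 1) := by
    have h6 : (offX n t (col b) m k : ℚ) ≤ gR n t * (gB n : ℚ) ^ (col b + 1) := by nlinarith
    exact_mod_cast h6
  rw [Nat.cast_sub h5]
  push_cast
  ring

theorem pt_snd {n t : ℕ} {b : Blob} {m k : ℕ} (hr : row b < n) (hk : k < t) (hm : m < 3) :
    (pt n t b m k).2 = sgy b * (gR n t * (2 * 2 ^ n - 2 ^ row b) - offY n t (row b) m k) := by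
  unfold pt sgy
  simp only
  congr 1
  have h1 := offY_le hr hk hm
  obtain ⟨_, _, _, h2, h3⟩ := ZR (show 0 < n by omega) (show 0 < t by omega)
  obtain ⟨h7, h8⟩ := rowpow hr
  have h9 : 2 ^ row b ≤ 2 ^ (n + 1) := Nat.pow_le_pow_right (by norm_num) (by omega)
  have h10 : (((2 ^ (n + 1) - 2 ^ row b : ℕ)) : ℚ) = 2 * 2 ^ n - 2 ^ row b := by
    rw [Nat.cast_sub h9]
    push_cast
    rw [pow_succ]
    ring
  have h5 : offY n t (row b) m k ≤ gR n t * (2 ^ (n + 1) - 2 ^ row b) := by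
    have h6 : (offY n t (row b) m k : ℚ) ≤ gR n t * ((2 ^ (n + 1) - 2 ^ row b : ℕ) : ℚ) := by
      rw [h10]; nlinarith
    exact_mod_cast h6
  rw [Nat.cast_sub h5, Nat.cast_mul, h10]

/-- The horizontal coordinate in the frame of a blob on the same side. -/
theorem frx_same {n t : ℕ} {b b' : Blob} {m k : ℕ} (h : xs b' = xs b) (hc : col b' < n)
    (hk : k < t) (hm : m < 3) : (fr b (pt n t b' m k)).1 =
      gR n t * (gB n : ℚ) ^ (col b' + 1) - offX n t (col b') m k := by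
  unfold fr
  simp only
  rw [pt_fst hc hk hm, sgx_eq h, ← mul_assoc, sgx_sq, one_mul]

/-- The horizontal coordinate in the frame of a blob on the other side. -/
theorem frx_diff {n t : ℕ} {b b' : Blob} {m k : ℕ} (h : xs b' ≠ xs b) (hc : col b' < n)
    (hk : k < t) (hm : m < 3) : (fr b (pt n t b' m k)).1 =
      -(gR n t * (gB n : ℚ) ^ (col b' + 1) - offX n t (col b') m k) := by
  unfold fr
  simp only
  rw [pt_fst hc hk hm, sgx_ne h, ← mul_assoc, mul_neg, sgx_sq]
  ring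

/-- The vertical coordinate in the frame of a blob on the same side. -/
theorem fry_same {n t : ℕ} {b b' : Blob} {m k : ℕ} (h : ys b' = ys b) (hr : row b' < n)
    (hk : k < t) (hm : m < 3) : (fr b (pt n t b' m k)).2 =
      gR n t * (2 * 2 ^ n - 2 ^ row b') - offY n t (row b') m k := by
  unfold fr
  simp only
  rw [pt_snd hr hk hm, sgy_eq h, ← mul_assoc, sgy_sq, one_mul]

/-- The vertical coordinate in the frame of a blob on the other side. -/
theorem fry_diff {n t : ℕ} {b b' : Blob} {m k : ℕ} (h : ys b' ≠ ys b) (hr : row b' < n)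
    (hk : k < t) (hm : m < 3) : (fr b (pt n t b' m k)).2 =
      -(gR n t * (2 * 2 ^ n - 2 ^ row b') - offY n t (row b') m k) := by
  unfold fr
  simp only
  rw [pt_snd hr hk hm, sgy_ne h, ← mul_assoc, mul_neg, sgy_sq]
  ring

end Pool.Agent.W982.CP
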