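import Pool.Agent.W982.CP.Geo
import Pool.Agent.H243R3.TP.Cyc

/-!
# Project CP: the digraph (definitions)

There are `m` clauses; the clause `c < m` has the positions `3 c`, `3 c + 1`, `3 c + 2`. The
position `o < 3 m` has the variable `f o` and the sign `sg o`. Every position has a block of eight
rings with three vertices each; the blocks of a variable form a closed tube.
-/

namespace Pool.Agent.W982.CP

open Pool.Agent.H243R3.TP (nxt)

/-- The vertex number `j < 3` of the ring `i < 8` of the position `o`. -/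
def vx (o i j : ℕ) : ℕ := 24 * o + 3 * i + j

section

variable (f : ℕ → ℕ) (sg : ℕ → Bool) (m : ℕ)

/-- The vertex above `vx o i j`. -/
def up (o i j : ℕ) : ℕ := if i = 7 then vx (nxt f (3 * m) o) 0 j else vx o (i + 1) j

/-- The arcs of a ring. -/
def ringA (o i j : ℕ) : ℕ × ℕ :=
  if i % 2 = 0 then (vx o i j, vx o i ((j + 1) % 3)) else (vx o i ((j + 1) % 3), vx o i j)

/-- The ring used by the sign. -/
def rho (o : ℕ) : ℕ := if sg o = true then 4 else 2

/-- The vertices of the hexagon of a clause. -/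
def hv (c q : ℕ) : ℕ :=
  if q = 0 then vx (3 * c) (rho sg (3 * c)) 0
  else if q = 1 then vx (3 * c + 1) (rho sg (3 * c + 1)) 1
  else if q = 2 then vx (3 * c + 2) 3 0
  else if q = 3 then vx (3 * c) 3 0
  else if q = 4 then vx (3 * c + 1) 3 1
  else vx (3 * c + 2) (rho sg (3 * c + 2)) 0

/-- The arcs of the digraph. -/
def arcs : List (ℕ × ℕ) :=
  ((List.range (3 * m)).flatMap fun o => (List.range 8).flatMap fun i =>
    (List.range 3).flatMap fun j =>
      [ringA o i j, (vx o i j, up f m o i j), (up f m o i j, vx o i j)]) ++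
  (List.range m).flatMap fun c => (List.range 6).map fun q => (hv sg c q, hv sg c ((q + 1) % 6))

/-- The first position of the variable. -/
def fo (v : ℕ) : ℕ := (((List.range (3 * m)).filter fun o => decide (f o = v)).head?).getD 0

/-- The first mark of a variable. -/
def mk1 (v : ℕ) : Blob := (ringA (fo f m v) 0 0, v % 2)

/-- The second mark of a variable. -/
def mk2 (v : ℕ) : Blob := ((up f m (fo f m v) 0 0, vx (fo f m v) 0 0), v % 2 + 1)

/-- The number of clauses without a true literal under the assignment `val`. -/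
def uns (val : ℕ → Bool) : ℕ := ((List.range m).filter fun c =>
  decide (val (f (3 * c)) ≠ sg (3 * c) ∧ val (f (3 * c + 1)) ≠ sg (3 * c + 1) ∧
    val (f (3 * c + 2)) ≠ sg (3 * c + 2))).length

end

/-! ### The statements about the digraph -/

/-- Basic properties of the list of arcs. -/
def S_ARCS : Prop := ∀ (f : ℕ → ℕ) (sg : ℕ → Bool) (m : ℕ), (arcs f sg m).length = 222 * m ∧
  (arcs f sg m).Nodup ∧ ∀ e ∈ arcs f sg m, e.1 < 72 * m ∧ e.2 < 72 * m

/-- Closed walks of length four through an arc number `0` of a ring of even index. -/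
def S_CL0 : Prop := ∀ (f : ℕ → ℕ) (sg : ℕ → Bool) (m o i y x : ℕ), o < 3 * m → i < 8 → i % 2 = 0 →
  (vx o i 1, y) ∈ arcs f sg m → (y, x) ∈ arcs f sg m → (x, vx o i 0) ∈ arcs f sg m →
  (y = up f m o i 1 ∧ x = up f m o i 0) ∨
  ∃ o' < 3 * m, ∃ i' < 8, (i' + 1) % 8 = i ∧ f o' = f o ∧ (∀ j, up f m o' i' j = vx o i j) ∧
    y = vx o' i' 1 ∧ x = vx o' i' 0

/-- Closed walks of length four through an arc number `0` of a ring of odd index. -/
def S_CL1 : Prop := ∀ (f : ℕ → ℕ) (sg : ℕ → Bool) (m o i y x : ℕ), o < 3 * m → i < 8 → i % 2 = 1 →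
  (vx o i 0, y) ∈ arcs f sg m → (y, x) ∈ arcs f sg m → (x, vx o i 1) ∈ arcs f sg m →
  (y = up f m o i 0 ∧ x = up f m o i 1) ∨ (y = vx o (i - 1) 0 ∧ x = vx o (i - 1) 1)

/-- Closed walks of length four through the arc number `0` of a hexagon. -/
def S_CLH : Prop := ∀ (f : ℕ → ℕ) (sg : ℕ → Bool) (m c y x : ℕ), c < m →
  (hv sg c 1, y) ∈ arcs f sg m → (y, x) ∈ arcs f sg m → (x, hv sg c 0) ∈ arcs f sg m →
  (y = hv sg c 2 ∧ x = hv sg c 3) ∨ (y = hv sg c 2 ∧ x = hv sg c 5) ∨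
  (y = hv sg c 4 ∧ x = hv sg c 5)

/-- Soundness of the digraph. -/
def S_GS : Prop := ∀ (f : ℕ → ℕ) (sg : ℕ → Bool) (m Δ : ℕ), 1 ≤ Δ →
  (∀ o < 3 * m, f o % 2 = if o % 3 = 2 then 1 else 0) →
  (∀ v, ((List.range (3 * m)).filter fun o => decide (f o = v)).length ≤ Δ) →
  ∀ R : Finset Quad, (∀ q ∈ R, Closed (arcs f sg m) q) →
  (∀ q ∈ R, ∀ q' ∈ R, ∀ b, b ∈ rect q → b ∈ rect q' → q = q') →
  uns f sg m (fun v => decide (∃ q ∈ R, mk1 f m v ∈ rect q ∧ mk2 f m v ∈ rect q)) ≤
    Δ * ((blobs (arcs f sg m)).filter fun b => decide (∀ q ∈ R, b ∉ rect q)).length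

/-- Completeness of the digraph. -/
def S_GC : Prop := ∀ (f : ℕ → ℕ) (sg : ℕ → Bool) (m : ℕ) (val : ℕ → Bool),
  ∃ Q : List Quad, Q.length ≤ 222 * m + 18 * uns f sg m val ∧
    (∀ q ∈ Q, q.1 < 72 * m ∧ q.2.1 < 72 * m ∧ q.2.2.1 < 72 * m ∧ q.2.2.2 < 72 * m) ∧
    ∀ b ∈ blobs (arcs f sg m), ∃ q ∈ Q, b ∈ rect q

end Pool.Agent.W982.CP
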